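import Pool.Agent.H78.Tie.StatAp

/-!
# No overlap for single ties, from its local parts
-/

namespace Pool.Agent.H78.Tie

open Finset
open Pool.Agent.H98.Flat
open Pool.Agent.H67.Flat

set_option linter.dupNamespace false

namespace TAp

variable {A : TAp}

/-- a class with its records: `U_i = q m + f`, row `s`, `D i = p (q n + f)` -/
def ClsN (A : TAp) (i m f s n : ℤ) : Prop :=
  A.Cls i m f s ∧ A.D * i = A.p * (A.q * n + f)

/-- class `i <> t` overlaps the rectangle of class `0` -/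
def Tie.Ov (T : A.Tie) (i m f s : ℤ) : Prop :=
  A.Cls i m f s ∧ i ≠ T.t ∧ -(A.w : ℤ) ≤ m ∧ m < A.w ∧ -(A.h : ℤ) ≤ m + s ∧ m + s < A.h

theorem exists_mul_dvd {p c : ℤ} (hp : 0 < p) (hc : 0 < c) (hcp : c < p) (μ : ℤ) :
    ∃ i, 0 < i ∧ i < p ∧ (p ∣ μ * i + c ∨ p ∣ μ * i) := by
  by_cases hg : IsCoprime μ p
  · obtain ⟨a, b, hab⟩ := hg
    have i0 := Int.emod_nonneg (-(a * c)) hp.ne'
    have i1 := Int.emod_lt_of_pos (-(a * c)) hp
    have ie := Int.emod_add_mul_ediv (-(a * c)) p
    set i := (-(a * c)) % p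
    have hd : p ∣ μ * i + c := ⟨c * b - μ * ((-(a * c)) / p), by
      linear_combination μ * ie - c * hab⟩
    refine ⟨i, ?_, i1, Or.inl hd⟩
    rcases lt_or_eq_of_le i0 with h | h
    · exact h
    · rw [← h, mul_zero, zero_add] at hd
      have := Int.le_of_dvd hc hd
      omega
  · have hg' : Int.gcd μ p ≠ 1 := fun h => hg (Int.isCoprime_iff_gcd_eq_one.2 h)
    have hg0 : Int.gcd μ p ≠ 0 := by
      intro h
      have := (Int.gcd_eq_zero_iff.1 h).2
      omega
    set g : ℤ := (Int.gcd μ p : ℤ) with hgd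
    have g2 : 2 ≤ g := by omega
    obtain ⟨x, hx⟩ : g ∣ μ := Int.gcd_dvd_left ..
    obtain ⟨y, hy⟩ : g ∣ p := Int.gcd_dvd_right ..
    have y0 : 0 < y := by
      by_contra hn
      have : y ≤ 0 := by omega
      nlinarith
    refine ⟨y, y0, by nlinarith, Or.inr ⟨x, ?_⟩⟩
    rw [hx, hy]; ring

theorem p_dvd_D' (A : TAp) : (A.p : ℤ) ∣ A.D := by
  have h1 := (dvd_mul_right (A.p : ℤ) A.q).trans A.hd
  have h2 := dvd_sub (A.hpa.mul_right A.p) h1
  rwa [sub_sub_cancel] at h2

/-- the record of index `i`: `U_i = q (n + μ i) + f` -/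
theorem exists_rec (A : TAp) : ∃ μ : ℤ, ∀ i : ℤ, 0 < i → i < A.p → ∃ f n : ℤ, 0 < f ∧ f < A.q ∧
    (A.p : ℤ) * A.q ∣ A.a * i - (A.q * (n + μ * i) + f) ∧ A.D * i = A.p * (A.q * n + f) := by
  obtain ⟨d, hd⟩ := p_dvd_D' A
  obtain ⟨z, hz⟩ := A.hd
  have hp : (A.p : ℤ) ≠ 0 := A.p_pos'.ne'
  have hq := A.q_pos'
  have e1 : A.a - d = A.q * z := by
    apply mul_left_cancel₀ hp
    have : A.D = A.q * A.md + A.fd := rfl
    rw [this] at hd
    linear_combination hz + hd
  refine ⟨z, ?_⟩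
  intro i i0 i1
  have e := Int.emod_add_mul_ediv (d * i) A.q
  have f0 := Int.emod_nonneg (d * i) hq.ne'
  have f1 := Int.emod_lt_of_pos (d * i) hq
  have fn : (d * i) % A.q ≠ 0 := by
    intro h
    apply not_dvd_ai i0 i1.le
    obtain ⟨y, hy⟩ := Int.dvd_of_emod_eq_zero h
    exact ⟨z * i + y, by linear_combination i * e1 + hy⟩
  refine ⟨(d * i) % A.q, d * i / A.q, by omega, f1, ⟨0, by linear_combination i * e1 - e⟩, ?_⟩
  rw [hd]
  linear_combination -(A.p : ℤ) * e

/-- a class with a vertical wall at `θ` in `(0, D)` -/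
theorem exists_jV (A : TAp) : ∃ j m f s n, A.ClsN j m f s n ∧ (m = n - A.w ∨ m = n) ∧
    (A.h : ℤ) - 1 - A.p < m + s ∧ m + s < A.h := by
  obtain ⟨μ, hμ⟩ := exists_rec A
  have hp := A.p_pos'
  obtain ⟨i, i0, i1, hi⟩ := exists_mul_dvd hp (c := A.w) (by have := A.hw; omega)
    (by have := A.w2; omega) μ
  obtain ⟨f, n, f0, f1, hU, hD⟩ := hμ i i0 i1
  have key : ∀ m : ℤ, (A.p : ℤ) ∣ n + μ * i - m → ∃ s, A.ClsN i m f s n ∧
      (A.h : ℤ) - 1 - A.p < m + s ∧ m + s < A.h := by
    intro m hm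
    obtain ⟨x, hx⟩ := hm
    obtain ⟨y, hy⟩ := hU
    have s0 := Int.emod_nonneg (A.e * i + m - (A.h - A.p)) hp.ne'
    have s1 := Int.emod_lt_of_pos (A.e * i + m - (A.h - A.p)) hp
    have se := Int.emod_add_mul_ediv (A.e * i + m - (A.h - A.p)) A.p
    refine ⟨A.h - A.p - m + (A.e * i + m - (A.h - A.p)) % A.p, ⟨⟨i0, i1, f0, f1, ?_, ?_⟩, hD⟩,
      by omega, by omega⟩
    · exact ⟨y + x, by linear_combination hy + (A.q : ℤ) * hx⟩
    · exact ⟨(A.e * i + m - (A.h - A.p)) / A.p, by linear_combination -se⟩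
  rcases hi with h | h
  · obtain ⟨s, h1, h2, h3⟩ := key (n - A.w) (by
      rwa [show n + μ * i - (n - A.w) = μ * i + A.w by ring])
    exact ⟨i, _, f, s, n, h1, Or.inl rfl, h2, h3⟩
  · obtain ⟨s, h1, h2, h3⟩ := key n (by rwa [show n + μ * i - n = μ * i by ring])
    exact ⟨i, _, f, s, n, h1, Or.inr rfl, h2, h3⟩

/-- a class with a horizontal wall at `-H + θ`, `θ` in `(0, D)` -/
theorem exists_jH (A : TAp) : ∃ j m f s n, A.ClsN j m f s n ∧ (m + s = n - A.h ∨ m + s = n) ∧
    (A.w : ℤ) - 1 - A.p < m ∧ m < A.w := by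
  obtain ⟨μ, hμ⟩ := exists_rec A
  have hp := A.p_pos'
  obtain ⟨i, i0, i1, hi⟩ := exists_mul_dvd hp (c := A.h) (by have := A.hh; omega)
    (by have := A.h2; omega) (μ + A.e)
  obtain ⟨f, n, f0, f1, hU, hD⟩ := hμ i i0 i1
  have key : ∀ v : ℤ, (A.p : ℤ) ∣ n + (μ + A.e) * i - v → ∃ m s, A.ClsN i m f s n ∧ m + s = v ∧
      (A.w : ℤ) - 1 - A.p < m ∧ m < A.w := by
    intro v hv
    obtain ⟨x, hx⟩ := hv
    obtain ⟨y, hy⟩ := hU
    have s0 := Int.emod_nonneg (n + μ * i - (A.w - A.p)) hp.ne'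
    have s1 := Int.emod_lt_of_pos (n + μ * i - (A.w - A.p)) hp
    have se := Int.emod_add_mul_ediv (n + μ * i - (A.w - A.p)) A.p
    refine ⟨A.w - A.p + (n + μ * i - (A.w - A.p)) % A.p,
      v - (A.w - A.p + (n + μ * i - (A.w - A.p)) % A.p), ⟨⟨i0, i1, f0, f1, ?_, ?_⟩, hD⟩,
      by omega, by omega, by omega⟩
    · exact ⟨y + (n + μ * i - (A.w - A.p)) / A.p, by
        linear_combination hy - (A.q : ℤ) * se⟩
    · exact ⟨x - (n + μ * i - (A.w - A.p)) / A.p, by linear_combination hx + se⟩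
  rcases hi with h | h
  · obtain ⟨m, s, h1, h2, h3, h4⟩ := key (n - A.h) (by
      rwa [show n + (μ + A.e) * i - (n - A.h) = (μ + A.e) * i + A.h by ring])
    exact ⟨i, m, f, s, n, h1, Or.inl h2, h3, h4⟩
  · obtain ⟨m, s, h1, h2, h3, h4⟩ := key n (by
      rwa [show n + (μ + A.e) * i - n = (μ + A.e) * i by ring])
    exact ⟨i, m, f, s, n, h1, Or.inr h2, h3, h4⟩

/-- `θ` lies in `(0, D)` -/
theorem ClsN.th {j m f s n : ℤ} (h : A.ClsN j m f s n) :
    0 < A.q * n + f ∧ A.q * n + f < A.D ∧ 0 ≤ n ∧ n ≤ A.md := by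
  obtain ⟨⟨j0, j1, f0, f1, -, -⟩, hD⟩ := h
  have hp := A.p_pos'
  have hq := A.q_pos'
  have hD0 : 0 < A.D := by
    have := A.hfd
    have := A.hmd
    unfold D; positivity
  have h1 : 0 < A.p * (A.q * n + f) := by rw [← hD]; exact mul_pos hD0 j0
  have h2 : 0 < A.q * n + f := (mul_pos_iff_of_pos_left hp).1 h1
  have h3 : A.p * (A.q * n + f) < A.p * A.D := by
    rw [← hD, mul_comm]
    exact mul_lt_mul_of_pos_right j1 hD0
  have h4 := lt_of_mul_lt_mul_left h3 hp.le
  have h5 := A.D_lt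
  refine ⟨h2, h4, ?_, ?_⟩
  · by_contra hn
    have : n ≤ -1 := by omega
    nlinarith
  · by_contra hn
    have : A.md + 1 ≤ n := by omega
    nlinarith

theorem Cls.p_dvd {i m f s : ℤ} (c : A.Cls i m f s) : (A.p : ℤ) ∣ A.q * m + f := by
  have h1 := (dvd_mul_right (A.p : ℤ) A.q).trans c.2.2.2.2.1
  have h2 := dvd_sub (A.hpa.mul_right i) h1
  rwa [sub_sub_cancel] at h2

/-- `D / p` is at least `2` when `t ≠ 1` -/
theorem Tie.D_ge (T : A.Tie) (ht : T.t ≠ 1) : 2 * (A.p : ℤ) ≤ A.D := by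
  obtain ⟨d, hd⟩ := p_dvd_D' A
  have hp := A.p_pos'
  have hpq : (A.p : ℤ) < A.q := by exact_mod_cast A.pq
  have hD0 : 0 < A.D := by
    have := A.hfd
    have := A.hmd
    have := A.q_pos'
    unfold D; positivity
  have d0 : 0 < d := by
    by_contra hn
    have : d ≤ 0 := by omega
    nlinarith
  by_contra hc
  have d1 : d = 1 := by
    by_contra hn
    have : 2 ≤ d := by omega
    nlinarith
  rw [d1, mul_one] at hd
  apply ht
  obtain ⟨z, hz⟩ := A.hd
  have e1 : A.a - 1 = A.q * z := by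
    apply mul_left_cancel₀ hp.ne'
    have : A.D = A.q * A.md + A.fd := rfl
    rw [this] at hd
    linear_combination hz + hd
  obtain ⟨y, hy⟩ := T.tie
  have h2 : T.t - T.ep * A.sg = A.q * (A.p * y + T.ep * A.w - z * T.t) := by
    linear_combination hy - T.t * e1
  have t0 := T.t0
  have tp := T.tp
  have e3 : T.ep * A.sg = 1 ∨ T.ep * A.sg = -1 := by
    rcases T.hep with h | h <;> rcases A.hsg with h' | h' <;> rw [h, h'] <;> norm_num
  have hpp := A.h2
  have hhh := A.hh
  generalize A.p * y + T.ep * A.w - z * T.t = c at h2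
  rcases e3 with h | h <;> rw [h] at h2
  · have c0 : c = 0 := by
      by_contra hc0
      rcases lt_or_gt_of_ne hc0 with h3 | h3
      · have : A.q * c ≤ A.q * (-1) := mul_le_mul_of_nonneg_left (by omega) (by omega)
        omega
      · have : (A.q : ℤ) * 1 ≤ A.q * c := mul_le_mul_of_nonneg_left (by omega) (by omega)
        omega
    rw [c0, mul_zero] at h2
    omega
  · exfalso
    rcases lt_or_ge c 1 with h3 | h3
    · have : A.q * c ≤ A.q * 0 := mul_le_mul_of_nonneg_left (by omega) (by omega)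
      omega
    · have : (A.q : ℤ) * 1 ≤ A.q * c := mul_le_mul_of_nonneg_left (by omega) (by omega)
      omega

theorem ClsN.th2 {j m f s n : ℤ} (h : A.ClsN j m f s n) (hD : 2 * (A.p : ℤ) ≤ A.D) :
    2 ≤ A.q * n + f ∧ A.q * n + f ≤ A.D - 2 := by
  obtain ⟨⟨j0, j1, f0, f1, -, -⟩, hE⟩ := h
  have hp := A.p_pos'
  constructor
  · by_contra hn
    have h1 : A.q * n + f ≤ 1 := by omega
    have h2 : A.p * (A.q * n + f) ≤ A.p * 1 := mul_le_mul_of_nonneg_left h1 hp.le
    have h3 : A.D * 1 ≤ A.D * j := mul_le_mul_of_nonneg_left (by omega) (by omega)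
    omega
  · by_contra hn
    have h1 : A.D - 1 ≤ A.q * n + f := by omega
    have h2 : A.p * (A.D - 1) ≤ A.p * (A.q * n + f) := mul_le_mul_of_nonneg_left h1 hp.le
    have h3 : A.D * j ≤ A.D * (A.p - 1) := mul_le_mul_of_nonneg_left (by omega) (by omega)
    have h4 : (A.p : ℤ) * (A.D - 1) - A.D * (A.p - 1) = A.D - A.p := by ring
    omega

/-- the two records of a class with `U = q w + sg` -/
theorem Tie.at_W (T : A.Tie) (hs : T.Single) {l m f s : ℤ} (c : A.Cls l m f s)
    (hU : (A.p : ℤ) * A.q ∣ A.a * l - (A.q * A.w + A.sg)) (m0 : -(A.w : ℤ) ≤ m) (m1 : m < A.w)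
    (v0 : -(A.h : ℤ) ≤ m + s) (v1 : m + s < A.h) : l = T.t ∧ T.ep = 1 := by
  have hp := A.p_pos'
  have hq := A.q_pos'
  have l0 := c.1
  have l1 := c.2.1
  have f0 := c.2.2.1
  have f1 := c.2.2.2.1
  have t0 := T.t0
  have tp := T.tp
  have w2 := A.w2
  have hh2 := A.h2
  rcases T.partner (j := l) (i := 0) (by rwa [sub_zero]) (by rw [sub_zero, abs_of_pos l0]; omega)
    with h | h
  · rcases T.hep with he | he <;> rw [he] at h
    · exact ⟨by omega, he⟩
    · omega
  · exfalso
    have h5 := T.sec_row (j := l) (i := 0) (s := s) (s' := 0) c.2.2.2.2.2 (by simp) h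
    have hm : m = A.w - 1 := by
      have h6 := dvd_sub hU c.2.2.2.2.1
      rw [sub_sub_sub_cancel_left] at h6
      obtain ⟨z, hz⟩ := h6
      -- q (m - w) + f - sg = p q z
      have hz' : A.q * (m - A.w - A.p * z) = A.sg - f := by linear_combination hz
      rcases A.hsg with hsg | hsg <;> rw [hsg] at hz'
      · exfalso
        have h7 : m - A.w - A.p * z = 0 ∨ m - A.w - A.p * z ≤ -1 ∨ 1 ≤ m - A.w - A.p * z := by omega
        rcases h7 with h7 | h7 | h7
        · rw [h7, mul_zero] at hz'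
          have z0 : z = -0 := by
            rcases lt_trichotomy z 0 with h8 | h8 | h8
            · exfalso
              have : A.p * z ≤ A.p * (-1) := mul_le_mul_of_nonneg_left (by omega) hp.le
              omega
            · omega
            · exfalso
              have : (A.p : ℤ) * 1 ≤ A.p * z := mul_le_mul_of_nonneg_left (by omega) hp.le
              omega
          rw [z0] at h7
          omega
        · have : A.q * (m - A.w - A.p * z) ≤ A.q * (-1) := mul_le_mul_of_nonneg_left h7 hq.le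
          omega
        · have : A.q * 1 ≤ A.q * (m - A.w - A.p * z) := mul_le_mul_of_nonneg_left h7 hq.le
          omega
      · have h7 : m - A.w - A.p * z = -1 := by
          by_contra hn
          have h8 : 0 ≤ m - A.w - A.p * z ∨ m - A.w - A.p * z ≤ -2 := by omega
          rcases h8 with h8 | h8
          · have : A.q * 0 ≤ A.q * (m - A.w - A.p * z) := mul_le_mul_of_nonneg_left h8 hq.le
            omega
          · have : A.q * (m - A.w - A.p * z) ≤ A.q * (-2) := mul_le_mul_of_nonneg_left h8 hq.le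
            omega
        have z0 : z = 0 := by
          rcases lt_trichotomy z 0 with h8 | h8 | h8
          · exfalso
            have : A.p * z ≤ A.p * (-1) := mul_le_mul_of_nonneg_left (by omega) hp.le
            omega
          · exact h8
          · exfalso
            have : (A.p : ℤ) * 1 ≤ A.p * z := mul_le_mul_of_nonneg_left (by omega) hp.le
            omega
        rw [z0] at h7
        omega
    rcases hs with h6 | ⟨h6, h7⟩
    · rcases T.hep with he | he <;> rw [he] at h <;> omega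
    · rw [← h5, sub_zero] at h6 h7
      rcases lt_or_ge (s + A.w) 0 with h8 | h8
      · have : (s + A.w) % (A.p : ℤ) = s + A.w + A.p := by
          rw [← Int.add_emod_right]
          exact Int.emod_eq_of_lt (by omega) (by omega)
        omega
      · have : (s + A.w) % (A.p : ℤ) = s + A.w := Int.emod_eq_of_lt h8 (by omega)
        omega

theorem Cls.neg' {i m f s : ℤ} (c : A.Cls i m f s) : ∃ m' f', A.Cls (A.p - i) m' f' (-s) ∧
    A.q * m' + f' = A.D - (A.q * m + f) := by
  rcases c.neg with ⟨-, h⟩ | ⟨-, h⟩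
  · exact ⟨_, _, h, by unfold D; ring⟩
  · exact ⟨_, _, h, by unfold D; ring⟩

theorem lt_of_qlt {q m f c : ℤ} (hq : 0 < q) (hf : 0 < f) (h : q * m + f < q * c) : m < c := by
  have : q * m < q * c := by omega
  exact lt_of_mul_lt_mul_left this hq.le

theorem qlt_of_lt {q m f c : ℤ} (hf : f < q) (hf0 : 0 < f) (h : m < c) : q * m + f < q * c := by
  have : q * (m + 1) ≤ q * c := mul_le_mul_of_nonneg_left h (by omega)
  rw [mul_add, mul_one] at this
  omega

theorem le_of_qlt {q m f c : ℤ} (hf : f < q) (hf0 : 0 < f) (h : q * c < q * m + f) : c ≤ m := by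
  have : q * c < q * (m + 1) := by rw [mul_add]; omega
  have := lt_of_mul_lt_mul_left this (by omega)
  omega

theorem qlt_of_le {q m f c : ℤ} (hf0 : 0 < f) (hq : 0 < q) (h : c ≤ m) : q * c < q * m + f := by
  have : q * c ≤ q * m := mul_le_mul_of_nonneg_left h hq.le
  omega

/-- an overlapping class and its partner `p - i` -/
theorem Tie.not_t (T : A.Tie) {l m f s : ℤ} (c : A.Cls l m f s) (m0 : -(A.w : ℤ) ≤ m)
    (m1 : A.q * m + f ≤ A.q * A.w - 2) (m2 : 2 ≤ A.q * m + f + A.q * A.w) : l ≠ T.t := by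
  intro hl
  have hp := A.p_pos'
  have hq := A.q_pos'
  have f0 := c.2.2.1
  have f1 := c.2.2.2.1
  have w2 := A.w2
  have h1 := c.2.2.2.2.1
  rw [hl] at h1
  have h2 := dvd_sub T.tie h1
  rw [sub_sub_sub_cancel_left] at h2
  -- p q | (q m + f) - ep (q w + sg)
  have hN : 2 * (A.q * A.w) + A.q ≤ (A.p : ℤ) * A.q := by
    have : (A.q : ℤ) * (2 * A.w + 1) ≤ A.q * A.p := mul_le_mul_of_nonneg_left (by omega) hq.le
    linarith
  have key : ∀ x : ℤ, (A.p : ℤ) * A.q ∣ x → -((A.p : ℤ) * A.q) < x → x < (A.p : ℤ) * A.q → x = 0 := by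
    rintro x ⟨z, hz⟩ h3 h4
    have hNp := A.N_pos'
    have z0 : z = 0 := by
      rcases lt_trichotomy z 0 with h | h | h
      · exfalso
        have : (A.p : ℤ) * A.q * z ≤ A.p * A.q * (-1) := mul_le_mul_of_nonneg_left (by omega) hNp.le
        omega
      · exact h
      · exfalso
        have : (A.p : ℤ) * A.q * 1 ≤ A.p * A.q * z := mul_le_mul_of_nonneg_left (by omega) hNp.le
        omega
    rw [hz, z0, mul_zero]
  have hqq : (2 : ℤ) ≤ A.q := by
    have : (A.p : ℤ) < A.q := by exact_mod_cast A.pq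
    have := A.hw
    omega
  have h5 : -(A.q * (A.w : ℤ)) < A.q * m + f := by
    have := qlt_of_le f0 hq m0
    rw [mul_neg] at this
    exact this
  rcases T.hep with he | he <;> rw [he] at h2
  · have := key _ h2 (by rcases A.hsg with h | h <;> rw [h] <;> linarith)
      (by rcases A.hsg with h | h <;> rw [h] <;> linarith)
    rcases A.hsg with h | h <;> rw [h] at this <;> linarith
  · have := key _ h2 (by rcases A.hsg with h | h <;> rw [h] <;> linarith)
      (by rcases A.hsg with h | h <;> rw [h] <;> linarith)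
    rcases A.hsg with h | h <;> rw [h] at this <;> linarith

/-- (L) : large `d` -/
def Tie.HL (T : A.Tie) : Prop :=
  ((A.w : ℤ) ≤ A.md ∨ (A.h : ℤ) ≤ A.md) → ∀ i m f s, T.Ov i m f s → False

/-- (SV) : `d < w ≤ h`, thin or far classes -/
def Tie.HSV (T : A.Tie) : Prop :=
  A.md < A.w → A.w ≤ A.h → ∀ i m f s, T.Ov i m f s →
    ((m < 0 ∧ A.q * m + f + (A.q * A.w + A.sg) < A.D) ∨ (0 ≤ m ∧ A.q * m + f < A.D) ∨
      (A.D < A.q * m + f ∧ A.q * (m + s) + f < A.D - A.q * A.h)) → False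

/-- (GV) : `d < w ≤ h`, a class with a vertical wall at `θ` and a class covering column `θ` -/
def Tie.HGV (T : A.Tie) : Prop :=
  A.md < A.w → A.w ≤ A.h → ∀ i m f s, T.Ov i m f s → m < 0 →
    A.D ≤ A.q * m + f + (A.q * A.w + A.sg) →
    ∀ j m' f' s' n', A.ClsN j m' f' s' n' → (m' = n' - A.w ∨ m' = n') →
      (A.h : ℤ) ≤ m' + s' → m' + s' < A.p - A.h → False

/-- (SH) : `d < h < w`, thin or far classes, except `p - t` when `ep = 1` -/
def Tie.HSH (T : A.Tie) : Prop :=
  A.md < A.h → A.h < A.w → ∀ i m f s, T.Ov i m f s → ¬ (T.ep = 1 ∧ i + T.t = A.p) →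
    ((m + s < 0 ∧ A.q * (m + s) + f + A.q * A.h < A.D) ∨ (0 ≤ m + s ∧ A.q * (m + s) + f < A.D) ∨
      (A.D < A.q * (m + s) + f ∧ A.q * m + f + (A.q * A.w + A.sg) < A.D)) → False

/-- (GH) : `d < h < w`, a class with a horizontal wall at `-H + θ` -/
def Tie.HGH (T : A.Tie) : Prop :=
  A.md < A.h → A.h < A.w → ∀ i m f s, T.Ov i m f s → ¬ (T.ep = 1 ∧ i + T.t = A.p) → m + s < 0 →
    A.D < A.q * (m + s) + f + A.q * A.h →
    ∀ j m' f' s' n', A.ClsN j m' f' s' n' → (m' + s' = n' - A.h ∨ m' + s' = n') →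
      (j = T.t ∨ ((A.w : ℤ) ≤ m' ∧ m' < A.p - A.w)) → False

/-- (SP) : class `p - t`, `ep = 1` -/
def Tie.HSP (T : A.Tie) : Prop :=
  A.md < A.h → A.h < A.w → T.ep = 1 → ∀ m f s, T.Ov (A.p - T.t) m f s → False

/-- **no overlap**, from the local parts -/
theorem Tie.noOv_of (T : A.Tie) (hs : T.Single) (ht : T.t ≠ 1) (hL : T.HL) (hSV : T.HSV)
    (hGV : T.HGV) (hSH : T.HSH) (hGH : T.HGH) (hSP : T.HSP) : T.NoOv := by
  intro i m f s c hit ⟨m0, m1, v0, v1⟩
  have hO : T.Ov i m f s := ⟨c, hit, m0, m1, v0, v1⟩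
  clear c hit m0 m1 v0 v1
  have hp := A.p_pos'
  have hq := A.q_pos'
  have hD2 := T.D_ge ht
  have hDlt := A.D_lt
  have hfd := A.hfd
  have hmd := A.hmd
  have hDd : A.D = A.q * A.md + A.fd := rfl
  have w2 := A.w2
  have hh2 := A.h2
  have hw := A.hw
  have hh := A.hh
  by_cases hl : (A.w : ℤ) ≤ A.md ∨ (A.h : ℤ) ≤ A.md
  · exact hL hl i m f s hO
  push Not at hl
  obtain ⟨hl1, hl2⟩ := hl
  have fne : ∀ {i m f s : ℤ}, A.Cls i m f s → ∀ z : ℤ, A.q * z + f ≠ A.D := by
    intro i m f s c z h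
    have := pos_eq c.2.2.1 c.2.2.2.1 A.hfd A.hfd2 (h.trans hDd)
    exact c.f_ne_fd this.2
  rcases le_or_gt A.w A.h with hwh | hwh
  · -- `d < w ≤ h`
    have left : ∀ i m f s, T.Ov i m f s → m < 0 → False := by
      intro i m f s hO hm
      rcases lt_or_ge (A.q * m + f + (A.q * A.w + A.sg)) A.D with h1 | h1
      · exact hSV hl1 hwh i m f s hO (Or.inl ⟨hm, h1⟩)
      obtain ⟨j, m', f', s', n', hj, hmn, v0, v1⟩ := exists_jV A
      have th := hj.th
      have th2 := hj.th2 hD2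
      have f0' := hj.1.2.2.1
      have f1' := hj.1.2.2.2.1
      rcases lt_or_ge (m' + s') (-(A.h : ℤ)) with h2 | h2
      · have hj' : A.ClsN j (m' + A.p * 0) f' (s' + A.p * 1) n' := ⟨hj.1.shift 0 1, hj.2⟩
        exact hGV hl1 hwh i m f s hO hm h1 j _ f' _ n' hj' (by rcases hmn with h | h <;> omega)
          (by omega) (by omega)
      · -- `j` overlaps
        have q1 : A.D < A.q * A.w := by
          have : (A.q : ℤ) * (A.md + 1) ≤ A.q * A.w := mul_le_mul_of_nonneg_left (by omega) hq.le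
          omega
        have hsg := A.hsg
        rcases hmn with h | h
        · have e1 : A.q * m' + f' = A.q * n' + f' - A.q * A.w := by rw [h]; ring
          have hjt : j ≠ T.t := T.not_t hj.1 (by omega) (by omega) (by omega)
          refine hSV hl1 hwh j m' f' s' ⟨hj.1, hjt, by omega, by omega, h2, v1⟩
            (Or.inl ⟨by omega, ?_⟩)
          rcases hsg with h3 | h3 <;> rw [h3] <;> omega
        · have e1 : A.q * m' + f' = A.q * n' + f' := by rw [h]
          have hjt : j ≠ T.t := T.not_t hj.1 (by omega) (by omega) (by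
            have : (0 : ℤ) ≤ A.q * A.w := by positivity
            omega)
          exact hSV hl1 hwh j m' f' s' ⟨hj.1, hjt, by omega, by omega, h2, v1⟩
            (Or.inr (Or.inl ⟨by omega, by omega⟩))
    rcases lt_or_ge m 0 with hm | hm
    · exact left i m f s hO hm
    rcases lt_or_ge (A.q * m + f) A.D with h1 | h1
    · exact hSV hl1 hwh i m f s hO (Or.inr (Or.inl ⟨hm, h1⟩))
    have h1' : A.D < A.q * m + f := lt_of_le_of_ne h1 (fne hO.1 m).symm
    rcases lt_or_ge (A.q * (m + s) + f) (A.D - A.q * A.h) with h2 | h2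
    · exact hSV hl1 hwh i m f s hO (Or.inr (Or.inr ⟨h1', h2⟩))
    have h2' : A.D - A.q * A.h < A.q * (m + s) + f := by
      refine lt_of_le_of_ne h2 fun h => fne hO.1 (m + s + A.h) ?_
      rw [mul_add (A.q : ℤ) (m + s)]; omega
    obtain ⟨c, hit, m0, m1, v0, v1⟩ := hO
    obtain ⟨m', f', c', e1⟩ := c.neg'
    have f0 := c.2.2.1
    have f1 := c.2.2.2.1
    have f0' := c'.2.2.1
    have f1' := c'.2.2.2.1
    have e2 : A.q * (m' + -s) + f' = A.D - (A.q * (m + s) + f) := by
      rw [mul_add, mul_add, mul_neg]; omega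
    have u1 : A.q * m + f < A.q * A.w := qlt_of_lt f1 f0 m1
    have u2 : A.q * (m + s) + f < A.q * A.h := qlt_of_lt f1 f0 v1
    have a1 : m' < 0 := lt_of_qlt (c := 0) hq f0' (by rw [mul_zero]; omega)
    have a2 : -(A.w : ℤ) ≤ m' := le_of_qlt f1' f0' (by rw [mul_neg]; omega)
    have a3 : m' + -s < A.h := lt_of_qlt hq f0' (by omega)
    have a4 : -(A.h : ℤ) ≤ m' + -s := le_of_qlt f1' f0' (by rw [mul_neg]; omega)
    have hq2 : (2 : ℤ) ≤ A.q * A.w := by
      have : (A.q : ℤ) * 1 ≤ A.q * A.w := mul_le_mul_of_nonneg_left (by omega) hq.le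
      have : (A.p : ℤ) < A.q := by exact_mod_cast A.pq
      omega
    have hp2 : 2 ≤ A.D := by omega
    refine left _ m' f' (-s) ⟨c', T.not_t c' a2 (by omega) (by omega), a2, by omega, a4, a3⟩ a1
  · -- `d < h < w`
    have hwh' : (A.h : ℤ) < A.w := by exact_mod_cast hwh
    have sp : ∀ i m f s, T.Ov i m f s → T.ep = 1 ∧ i + T.t = A.p → False := by
      rintro i m f s hO ⟨h1, h2⟩
      have : i = A.p - T.t := by omega
      subst this
      exact hSP hl2 hwh h1 m f s hO
    have hqh : (A.q : ℤ) * A.h + A.q ≤ A.q * A.w := by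
      have : (A.q : ℤ) * (A.h + 1) ≤ A.q * A.w := mul_le_mul_of_nonneg_left (by omega) hq.le
      linarith
    have hDh : A.D < A.q * A.h := by
      have : (A.q : ℤ) * (A.md + 1) ≤ A.q * A.h := mul_le_mul_of_nonneg_left (by omega) hq.le
      omega
    have low : ∀ i m f s, T.Ov i m f s → m + s < 0 → ¬ (T.ep = 1 ∧ i + T.t = A.p) → False := by
      intro i m f s hO hv hsp
      rcases lt_or_ge (A.q * (m + s) + f + A.q * A.h) A.D with h1 | h1
      · exact hSH hl2 hwh i m f s hO hsp (Or.inl ⟨hv, h1⟩)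
      have h1' : A.D < A.q * (m + s) + f + A.q * A.h := by
        refine lt_of_le_of_ne h1 fun h => fne hO.1 (m + s + A.h) ?_
        rw [mul_add (A.q : ℤ) (m + s)]; omega
      obtain ⟨j, m', f', s', n', hj, hmn, v0, v1⟩ := exists_jH A
      have th := hj.th
      have f0' := hj.1.2.2.1
      have f1' := hj.1.2.2.2.1
      by_cases hjt : j = T.t
      · exact hGH hl2 hwh i m f s hO hsp hv h1' j m' f' s' n' hj hmn (Or.inl hjt)
      rcases lt_or_ge m' (-(A.w : ℤ)) with h2 | h2
      · have hj' : A.ClsN j (m' + A.p * 1) f' (s' + A.p * (-1)) n' := ⟨hj.1.shift 1 (-1), hj.2⟩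
        exact hGH hl2 hwh i m f s hO hsp hv h1' j _ f' _ n' hj' (by rcases hmn with h | h <;> omega)
          (Or.inr ⟨by omega, by omega⟩)
      · have hOj : T.Ov j m' f' s' := ⟨hj.1, hjt, h2, v1, by rcases hmn with h | h <;> omega,
          by rcases hmn with h | h <;> omega⟩
        by_cases hspj : T.ep = 1 ∧ j + T.t = A.p
        · exact sp j m' f' s' hOj hspj
        refine hSH hl2 hwh j m' f' s' hOj hspj ?_
        rcases hmn with h | h
        · left
          rw [h]
          refine ⟨by omega, ?_⟩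
          rw [mul_sub]; omega
        · right; left
          rw [h]
          exact ⟨by omega, by omega⟩
    by_cases hsp : T.ep = 1 ∧ i + T.t = A.p
    · exact sp i m f s hO hsp
    rcases lt_or_ge (m + s) 0 with hv | hv
    · exact low i m f s hO hv hsp
    rcases lt_or_ge (A.q * (m + s) + f) A.D with h1 | h1
    · exact hSH hl2 hwh i m f s hO hsp (Or.inr (Or.inl ⟨hv, h1⟩))
    have h1' : A.D < A.q * (m + s) + f := lt_of_le_of_ne h1 (fne hO.1 (m + s)).symm
    rcases lt_or_ge (A.q * m + f + (A.q * A.w + A.sg)) A.D with h2 | h2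
    · exact hSH hl2 hwh i m f s hO hsp (Or.inr (Or.inr ⟨h1', h2⟩))
    obtain ⟨c, hit, m0, m1, v0, v1⟩ := hO
    obtain ⟨m', f', c', e1⟩ := c.neg'
    have f0 := c.2.2.1
    have f1 := c.2.2.2.1
    have f0' := c'.2.2.1
    have f1' := c'.2.2.2.1
    have e2 : A.q * (m' + -s) + f' = A.D - (A.q * (m + s) + f) := by
      rw [mul_add, mul_add, mul_neg]; omega
    have u1 : A.q * m + f < A.q * A.w := qlt_of_lt f1 f0 m1
    have u2 : A.q * (m + s) + f < A.q * A.h := qlt_of_lt f1 f0 v1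
    have a1 : m' + -s < 0 := lt_of_qlt (c := 0) hq f0' (by rw [mul_zero]; omega)
    have a2 : -(A.w : ℤ) ≤ m' := le_of_qlt f1' f0' (by rw [mul_neg]; omega)
    have a4 : -(A.h : ℤ) ≤ m' + -s := le_of_qlt f1' f0' (by rw [mul_neg]; omega)
    have hpU := c'.p_dvd
    have hpW : (A.p : ℤ) ∣ A.q * A.w + A.sg := A.hpw
    -- `U_{p-i} < W1`
    have hlt : A.q * m' + f' < A.q * A.w + A.sg := by
      refine lt_of_le_of_ne (by omega) fun h => ?_
      have hU' : (A.p : ℤ) * A.q ∣ A.a * (A.p - i) - (A.q * A.w + A.sg) := by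
        rw [← h]; exact c'.2.2.2.2.1
      have m1' : m' ≤ A.w := by
        have : A.q * m' < A.q * (A.w + 1) := by
          rw [mul_add]
          rcases A.hsg with h3 | h3 <;> rw [h3] at h <;> omega
        have := lt_of_mul_lt_mul_left this hq.le
        omega
      rcases lt_or_eq_of_le m1' with h3 | h3
      · obtain ⟨h4, h5⟩ := T.at_W hs c' hU' a2 h3 a4 (by omega)
        exact hsp ⟨h5, by omega⟩
      · -- then `sg = 1`, `m' = w`, `f' = 1`; use the partner lemma
        have l0 := c'.1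
        have l1 := c'.2.1
        rcases T.partner (j := A.p - i) (i := 0) (by rwa [sub_zero])
          (by rw [sub_zero, abs_of_pos l0]; omega) with h4 | h4
        · rcases T.hep with he | he <;> rw [he] at h4
          · exact hsp ⟨he, by omega⟩
          · have := T.t0; omega
        · have h5 := T.sec_row (j := A.p - i) (i := 0) (s := -s) (s' := 0) c'.2.2.2.2.2 (by simp) h4
          rcases hs with h6 | ⟨h6, h7⟩
          · rcases T.hep with he | he <;> rw [he] at h4 <;> omega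
          · rw [← h5, sub_zero] at h6 h7
            have : (-s + A.w) % (A.p : ℤ) = -s + A.w + A.p := by
              rw [← Int.add_emod_right]
              exact Int.emod_eq_of_lt (by omega) (by omega)
            omega
    have hlt2 : A.q * m' + f' ≤ A.q * A.w + A.sg - A.p := by
      obtain ⟨x, hx⟩ := hpU
      obtain ⟨y, hy⟩ := hpW
      have : A.p * x < A.p * y := by rw [← hx, ← hy]; exact hlt
      have := lt_of_mul_lt_mul_left this hp.le
      have : A.p * x ≤ A.p * (y - 1) := mul_le_mul_of_nonneg_left (by omega) hp.le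
      rw [hx, hy]
      linarith
    have hsg := A.hsg
    have hb : A.q * m' + f' ≤ A.q * A.w - 2 := by rcases hsg with h3 | h3 <;> rw [h3] at hlt2 <;> omega
    have a3 : m' < A.w := lt_of_qlt hq f0' (by omega)
    have hp2 : 2 ≤ A.D := by omega
    have hjt := T.not_t c' a2 hb (by omega)
    exact low _ m' f' (-s) ⟨c', hjt, a2, a3, a4, by omega⟩ a1 (by
      rintro ⟨h3, h4⟩
      exact hit (by omega))

end TAp

end Pool.Agent.H78.Tie
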