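import Pool.Agent.H67.NO.GV

/-!
# The part (GH) of the non-overlapping theorem : reduction to (HG3)
-/

namespace Pool.Agent.H78.Tie

open Finset
open Pool.Agent.H98.Flat
open Pool.Agent.H67.Flat

set_option linter.dupNamespace false

namespace TAp

variable {A : TAp}

/-- two low-far classes with a common inner vertical line -/
def Tie.HG3 (T : A.Tie) : Prop :=
  A.md < A.h → A.h < A.w → ∀ jl jr m f g, T.MLn jl jr m f g → 0 ≤ m → m < A.w →
    A.D ≤ A.q * m + f → m + g < 0 → A.D < A.q * (m + g + A.h) + f → m + (g - T.x) < 0 →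
    A.D < A.q * (m + (g - T.x) + A.h) + (f - A.sg) → jl ≠ T.t → jr ≠ T.t →
    ¬ (T.ep = 1 ∧ jl + T.t = A.p) → ¬ (T.ep = 1 ∧ jr + T.t = A.p) →
    (∀ j m' f' s' n', A.ClsN j m' f' s' n' → (m' + s' = n' - A.h ∨ m' + s' = n') →
      (j = T.t ∨ ((A.w : ℤ) ≤ m' ∧ m' < A.p - A.w)) →
    ∀ jv m'' f'' s'' n'', A.ClsN jv m'' f'' s'' n'' → (m'' = n'' - A.w ∨ m'' = n'') →
      (A.h : ℤ) ≤ m'' + s'' → m'' + s'' < A.p - A.h → False)

/-- `Φ` when the horizontal wall is in `(-h, d-h)` -/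
theorem Phi_eq2 {mc fc mb fb : ℤ} (hc' : ¬ A.InL (mc - A.w) fc)
    (hb : ¬ A.InL mb fb) (hb' : A.InL (mb + A.h) fb) (Y : ℤ) :
    A.Phi mc fc mb fb Y = - (if A.InL mc fc ∧ InA A.p Y (-A.h) A.h then 1 else 0)
      - (if InA A.p Y (-A.w - A.h) A.w then 1 else 0) := by
  unfold Phi
  simp [hc', hb, hb']

/-- **merged lines in `(0, d)`** have no low-far class -/
theorem Tie.mvlow (F : A.Fl) (T : A.Tie) {jl jr m f g ga fa : ℤ} (M : T.MLn jl jr m f g)
    (hx0 : T.x ≠ 0) (hx : |T.x| < A.h) (hmd : A.md < A.w) (hmh : A.md < A.h)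
    (m0 : 0 ≤ m) (c1 : A.q * m + f < A.D)
    (hab : (ga = g ∧ fa = f) ∨ (ga = g - T.x ∧ fa = f - A.sg))
    (va0 : m + ga < 0) (va1 : A.D < A.q * (m + ga + A.h) + fa) : False := by
  have hp := A.p_pos'
  have hq := A.q_pos'
  have w2 := A.w2
  have hh2 := A.h2
  have hw := A.hw
  have hh := A.hh
  have hmd0 := A.hmd
  have hDd : A.D = A.q * A.md + A.fd := rfl
  have hfd0 := A.hfd
  have hfd1 := A.hfd2
  have f0 := M.1.2.2.1
  have f1 := M.1.2.2.2.1
  have fr0 := M.2.2.2.1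
  have fr1 := M.2.2.2.2.1
  have hxa := abs_lt.1 hx
  obtain ⟨z1, z2, z3, z4⟩ := T.mln_edge M hmd m0 c1
  have d1 : f ≠ A.fd := M.1.f_ne_fd
  have d2 : f - A.sg ≠ A.fd := M.2.f_ne_fd
  have d3 : f < A.fd ↔ f - A.sg < A.fd := by
    rcases A.hsg with h | h <;> rw [h] at d2 ⊢ <;> omega
  have mmd : m ≤ A.md := by
    by_contra hn
    have : A.q * (A.md + 1) ≤ A.q * m := mul_le_mul_of_nonneg_left (by omega) hq.le
    rw [mul_add, mul_one] at this
    omega
  have hq4 : (4 : ℤ) < A.q := by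
    have : (A.p : ℤ) < A.q := by exact_mod_cast A.pq
    omega
  have Lc : A.InL m f := (InL_pos f0 m0 (by omega) f1).2 c1
  have big : ∀ z y : ℤ, 0 ≤ z → z < A.p → 0 < y → y < A.q → A.D ≤ A.q * z + y → ¬ A.InL z y := by
    intro z y h1 h2 h3 h4 h5 h6
    rw [InL_pos h3 h1 h2 h4] at h6
    omega
  have small : ∀ z y : ℤ, -(A.p : ℤ) ≤ z → z < 0 → A.md < z + A.p → 0 < y → y < A.q →
      ¬ A.InL z y := by
    intro z y h1 h2 h3 h4 h5 h6
    rw [InL_neg h4 h1 h2 h5] at h6
    have : A.q * (A.md + 1) ≤ A.q * (z + A.p) := mul_le_mul_of_nonneg_left (by omega) hq.le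
    rw [mul_add, mul_one] at this
    omega
  have Lc' : ¬ A.InL (m - A.w) f := small _ _ (by omega) (by omega) (by omega) f0 f1
  have hhp : (A.h : ℤ) ≤ A.p := by omega
  have hh0 : (0 : ℤ) ≤ A.h := by omega
  -- the two levels
  obtain ⟨gm, gp, h1, h2, h3, h4, hgm⟩ : ∃ gm gp : ℤ, gm < gp ∧ gp - gm < A.h ∧ gm ≤ ga ∧ ga ≤ gp ∧
      ((gm = g ∧ gp = g - T.x) ∨ (gm = g - T.x ∧ gp = g)) := by
    rcases lt_or_gt_of_ne hx0 with h | h
    · exact ⟨g, g - T.x, by omega, by omega, by rcases hab with h' | h' <;> omega,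
        by rcases hab with h' | h' <;> omega, Or.inl ⟨rfl, rfl⟩⟩
    · exact ⟨g - T.x, g, by omega, by omega, by rcases hab with h' | h' <;> omega,
        by rcases hab with h' | h' <;> omega, Or.inr ⟨rfl, rfl⟩⟩
  have rule : ∀ {mv fv r Y : ℤ}, 0 < fv → fv < A.q → fv ≠ f → fv ≠ f - A.sg →
      r = mv - m + (if f < fv then 1 else 0) → gm < r → r ≤ gp → gm - A.h < Y → Y ≤ gp - A.h →
      A.Phi m f mv fv Y = A.Phi m f mv fv r := by
    intro mv fv r Y h1 h2 h3 h4 h5 h6 h7 h8 h9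
    apply T.rv F M h1 h2 h3 h4 h5
    have e1 : InA A.p r (gp - A.h) A.h := in_of (by omega) (by omega) hhp
    have e2 : ¬ InA A.p r (gm - A.h) A.h := not_in hh0 (by omega) (by omega)
    have e3 : InA A.p Y (gm - A.h) A.h := in_of (by omega) (by omega) hhp
    have e4 : ¬ InA A.p Y (gp - A.h) A.h := not_in' hh0 (by omega) (by omega)
    rcases hgm with ⟨h, h'⟩ | ⟨h, h'⟩ <;> rw [h] at e2 e3 <;> rw [h'] at e1 e4 <;> tauto
  -- level of `D - q h`
  have lev : A.md - A.h - m + (if f < A.fd then 1 else 0) ≤ gp := by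
    have e1 : A.q * (A.md - A.h - m - ga) < fa - A.fd := by
      have : A.q * (A.md - A.h - m - ga) = A.q * A.md - A.q * (m + ga + A.h) := by ring
      omega
    by_contra hn
    split_ifs at hn with hf
    · have hfa : fa ≤ A.fd := by rcases hab with h' | h' <;> omega
      have : A.q * 0 ≤ A.q * (A.md - A.h - m - ga) :=
        mul_le_mul_of_nonneg_left (by omega) hq.le
      omega
    · have hfa : fa < A.q := by rcases hab with h' | h' <;> omega
      have : A.q * 1 ≤ A.q * (A.md - A.h - m - ga) :=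
        mul_le_mul_of_nonneg_left (by omega) hq.le
      omega
  -- lower bound of the level
  have lev0 : -(A.h : ℤ) < A.md - A.h - m + (if f < A.fd then 1 else 0) := by
    split_ifs with hf
    · omega
    · have : m < A.md := by
        by_contra hn
        have : m = A.md := by omega
        rw [this] at c1
        omega
      omega
  have lev1 : A.md - A.h - m + (if f < A.fd then 1 else 0) ≤ 0 := by split_ifs <;> omega
  obtain ⟨Y, hY0, hY1, hY2, hY3⟩ : ∃ Y : ℤ, gm - A.h < Y ∧ Y ≤ gp - A.h ∧ Y ≤ -A.h ∧ 0 < Y + A.p := by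
    rcases lt_or_ge (-(A.p : ℤ)) (gm - A.h + 1) with h | h
    · exact ⟨gm - A.h + 1, by omega, by omega, by omega, by omega⟩
    · exact ⟨1 - A.p, by omega, by omega, by omega, by omega⟩
  have nY : ¬ InA A.p Y (-A.h) A.h := not_in' hh0 (by omega) (by omega)
  -- the two choices of the height
  rcases lt_or_ge gm (A.md - A.h - m + (if f < A.fd then 1 else 0)) with h5 | h5
  · have e1 := rule (mv := A.md - A.h) (fv := A.fd) (Y := Y) hfd0 hfd1 (Ne.symm d1) (Ne.symm d2)
      rfl h5 lev hY0 hY1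
    have n1 : ¬ A.InL (A.md - A.h) A.fd := small _ _ (by omega) (by omega) (by omega) hfd0 hfd1
    have n2 : ¬ A.InL (A.md - A.h + A.h) A.fd := by
      rw [sub_add_cancel]
      exact big _ _ hmd0 (by omega) hfd0 hfd1 (by omega)
    have a1 : InA A.p (A.md - A.h - m + (if f < A.fd then 1 else 0)) (-A.h) A.h :=
      in_of (by omega) (by omega) hhp
    rw [Phi_eq Lc Lc' n1, Phi_eq Lc Lc' n1, if_neg nY, if_pos a1, if_neg (fun h => n2 h.1),
      if_neg (fun h => n2 h.1)] at e1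
    norm_num at e1
  · have e1 := rule (mv := m + gm) (fv := A.q - 1) (r := gm + 1) (Y := Y) (by omega) (by omega)
      (Ne.symm z2) (Ne.symm z4) (by rw [if_pos (by omega)]; ring) (by omega) (by omega) hY0 hY1
    have n1 : ¬ A.InL (m + gm) (A.q - 1) :=
      small _ _ (by omega) (by omega) (by omega) (by omega) (by omega)
    have n2 : ¬ A.InL (m + gm + A.h) (A.q - 1) := by
      have h6 : A.md ≤ m + gm + A.h := by split_ifs at h5 <;> omega
      apply big _ _ (by omega) (by omega) (by omega) (by omega)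
      have : A.q * A.md ≤ A.q * (m + gm + A.h) := mul_le_mul_of_nonneg_left h6 hq.le
      omega
    have a1 : InA A.p (gm + 1) (-A.h) A.h := in_of (by omega) (by omega) hhp
    rw [Phi_eq Lc Lc' n1, Phi_eq Lc Lc' n1, if_neg nY, if_pos a1, if_neg (fun h => n2 h.1),
      if_neg (fun h => n2 h.1)] at e1
    norm_num at e1

/-- arithmetic of the free case, `c' > d` -/
theorem gh_free1 {p w h k r g mb mc V : ℤ} (hwh : h < w) (w2 : 2 * w < p)
    (hV0 : V < 0) (hg : g = V - mc) (c0 : 0 ≤ mc)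
    (b0 : -h ≤ mb) (k0 : mb - p + w ≤ k) (r0 : -w - h < r)
    (r1 : r ≤ -h) (rg : g - h < r) (rg' : r ≤ g) (rk : k < r) (rk' : r ≤ k + p - w)
    (rule : ∀ Y, InA p Y (k - w) w → ¬ InA p Y (g - h) h → InA p Y (-w - h) w) : False := by
  have R1 := rule (k - w + 1) (in_of (by omega) (by omega) (by omega))
  rw [InA_Ar (by omega) (by omega) (by omega), InA_Ar (by omega) (by omega) (by omega)] at R1
  unfold Ar at R1
  rcases le_total k (-w - h) with h3 | h3
  · have R2 := rule k (in_of (by omega) (by omega) (by omega))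
    rw [InA_Ar (by omega) (by omega) (by omega), InA_Ar (by omega) (by omega) (by omega)] at R2
    unfold Ar at R2
    omega
  · have R2 := rule (-w - h) (in_of (by omega) (by omega) (by omega))
    rw [InA_Ar (by omega) (by omega) (by omega), InA_Ar (by omega) (by omega) (by omega)] at R2
    unfold Ar at R2
    omega

/-- arithmetic of the free case, `c' < d` -/
theorem gh_free2 {p w h k r g mb mc V : ℤ} (hwh : h < w) (w2 : 2 * w < p)
    (hV0 : V < 0) (hg : g = V - mc) (c0 : 0 ≤ mc) (gh : -h ≤ g)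
    (b0 : -h ≤ mb) (k0 : mb - p + w ≤ k) (k1 : k < -h)
    (rg : g - h < r) (rg' : r ≤ g) (rk : k < r) (rk' : r ≤ k + p - w)
    (rule : ∀ Y, InA p Y (k - w) w → ¬ InA p Y (g - h) h →
      InA p Y (-w - h) w ∨ InA p Y (-h) h) : False := by
  have R1 := rule (k - w + 1) (in_of (by omega) (by omega) (by omega))
  rw [InA_Ar (by omega) (by omega) (by omega), InA_Ar (by omega) (by omega) (by omega),
    InA_Ar (by omega) (by omega) (by omega)] at R1
  unfold Ar at R1
  have R2 := rule k (in_of (by omega) (by omega) (by omega))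
  rw [InA_Ar (by omega) (by omega) (by omega), InA_Ar (by omega) (by omega) (by omega),
    InA_Ar (by omega) (by omega) (by omega)] at R2
  unfold Ar at R2
  rcases le_or_gt (k - w + 1 + p) 1 with h3 | h3
  · have R3 := rule 1 (in_of'' (by omega) (by omega) (by omega))
    rw [InA_Ar (by omega) (by omega) (by omega), InA_Ar (by omega) (by omega) (by omega),
      InA_Ar (by omega) (by omega) (by omega)] at R3
    unfold Ar at R3
    omega
  · omega

/-- the class with a horizontal wall at `-H + θ` : its data -/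
structure HJ (A : TAp) (j mb fj mj : ℤ) : Prop where
  hw : A.HW j mb fj (mb - mj)
  b0 : -(A.h : ℤ) ≤ mb
  b1 : mb < 0
  f0 : 0 < fj
  f1 : fj < A.q
  hD : A.q * (mb + A.h) + fj + 2 ≤ A.D
  lo : (A.w : ℤ) ≤ mj ∨ (mj = A.w - 1 ∧ fj = A.q - 1)
  hi : mj < A.p - A.w ∨ (mj = A.p - A.w ∧ fj = 1)

/-- position of `b - c'` -/
theorem HJ.pos {j mb fj mj mc fc g fi : ℤ} (H : HJ A j mb fj mj) (hmh : A.md < A.h)
    (c0 : 0 ≤ mc) (cw : mc < A.w) (fc0 : 0 < fc) (fc1 : fc < A.q)
    (hne : fc ≠ fj) (hfi : fi = fc ∨ fi = fc - A.sg) (hfi' : fi ≠ fj) (fi1 : fi < A.q)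
    (V0 : mc + g < 0) (V1 : A.D < A.q * (mc + g + A.h) + fi) {r : ℤ}
    (hr : r = mb - mc + (if fc < fj then 1 else 0)) :
    g - A.h < r ∧ r ≤ g ∧ mb - mj < r ∧ r ≤ mb - mj + A.p - A.w ∧ -(A.w : ℤ) - A.h < r ∧ r ≤ 0 ∧
    (A.D ≤ A.q * mc + fc → r ≤ -A.h) := by
  have hq := A.q_pos'
  have hw := A.hw
  have hD := H.hD
  have b0 := H.b0
  have b1 := H.b1
  have f0 := H.f0
  have f1 := H.f1
  have e1 : A.q * (mb + A.h) + fj + 2 < A.q * (mc + g + A.h) + fi := by omega
  have e2 : fj - fi + 2 < A.q * (mc + g - mb) := by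
    have : A.q * (mc + g - mb) = A.q * (mc + g + A.h) - A.q * (mb + A.h) := by ring
    omega
  have e3 : fc < fj ↔ fi < fj := by
    rcases hfi with h | h
    · rw [h]
    · rcases A.hsg with h' | h' <;> rw [h'] at h <;> omega
  have e4 : mb - mc + (if fc < fj then 1 else 0) ≤ g := by
    split_ifs with h
    · by_contra hn
      have : A.q * (mc + g - mb) ≤ A.q * 0 := mul_le_mul_of_nonneg_left (by omega) hq.le
      omega
    · by_contra hn
      have : A.q * (mc + g - mb) ≤ A.q * (-1) := mul_le_mul_of_nonneg_left (by omega) hq.le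
      omega
  have e5 : A.D ≤ A.q * mc + fc → mb - mc + (if fc < fj then 1 else 0) ≤ -(A.h : ℤ) := by
    intro h
    have e6 : fj - fc + 2 ≤ A.q * (mc - (mb + A.h)) := by
      have : A.q * (mc - (mb + A.h)) = A.q * mc - A.q * (mb + A.h) := by ring
      omega
    split_ifs with h
    · by_contra hn
      have : A.q * (mc - (mb + A.h)) ≤ A.q * 0 := mul_le_mul_of_nonneg_left (by omega) hq.le
      omega
    · by_contra hn
      have : A.q * (mc - (mb + A.h)) ≤ A.q * (-1) := mul_le_mul_of_nonneg_left (by omega) hq.le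
      omega
  have lo := H.lo
  have hi := H.hi
  rw [hr]
  refine ⟨?_, e4, ?_, ?_, ?_, ?_, e5⟩
  · split_ifs <;> omega
  · split_ifs with h
    · omega
    · rcases lo with h' | ⟨h', h''⟩ <;> omega
  · split_ifs with h
    · rcases hi with h' | ⟨h', h''⟩ <;> omega
    · omega
  · split_ifs <;> omega
  · split_ifs <;> omega

/-- a low-far class and a class with a horizontal wall at `-H + θ` : the line of the inner
vertical wall cannot satisfy the simple rule -/
theorem HJ.line {j mb fj mj mc fc g fi : ℤ} (H : HJ A j mb fj mj) (hmh : A.md < A.h)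
    (hhw : A.h < A.w) (c0 : 0 ≤ mc) (cw : mc < A.w) (fc0 : 0 < fc) (fc1 : fc < A.q)
    (hne : fc ≠ fj) (hfi : fi = fc ∨ fi = fc - A.sg) (hfi' : fi ≠ fj) (fi1 : fi < A.q)
    (V0 : mc + g < 0) (V1 : A.D < A.q * (mc + g + A.h) + fi) {r : ℤ}
    (hr : r = mb - mc + (if fc < fj then 1 else 0))
    (R : ∀ Y, InA A.p Y (mb - mj - A.w) A.w → ¬ InA A.p Y (g - A.h) A.h →
      A.Phi mc fc mb fj Y = A.Phi mc fc mb fj r) : False := by
  obtain ⟨r1, r2, r3, r4, r5, r6, r7⟩ := H.pos hmh c0 cw fc0 fc1 hne hfi hfi' fi1 V0 V1 hr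
  have hp := A.p_pos'
  have hq := A.q_pos'
  have w2 := A.w2
  have hh2 := A.h2
  have hw := A.hw
  have hh := A.hh
  have hmd0 := A.hmd
  have hDd : A.D = A.q * A.md + A.fd := rfl
  have hfd0 := A.hfd
  have hfd1 := A.hfd2
  have hD := H.hD
  have b0 := H.b0
  have b1 := H.b1
  have f0 := H.f0
  have f1 := H.f1
  have lo := H.lo
  have hi := H.hi
  have mbd : mb + A.h ≤ A.md := by
    by_contra hn
    have : A.q * (A.md + 1) ≤ A.q * (mb + A.h) := mul_le_mul_of_nonneg_left (by omega) hq.le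
    rw [mul_add, mul_one] at this
    omega
  have small : ∀ z y : ℤ, -(A.p : ℤ) ≤ z → z < 0 → A.md < z + A.p → 0 < y → y < A.q →
      ¬ A.InL z y := by
    intro z y h1 h2 h3 h4 h5 h6
    rw [InL_neg h4 h1 h2 h5] at h6
    have : A.q * (A.md + 1) ≤ A.q * (z + A.p) := mul_le_mul_of_nonneg_left (by omega) hq.le
    rw [mul_add, mul_one] at this
    omega
  have Lb : ¬ A.InL mb fj := small _ _ (by omega) b1 (by omega) f0 f1
  have Lbh : A.InL (mb + A.h) fj := (InL_pos f0 (by omega) (by omega) f1).2 (by omega)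
  have Lc' : ¬ A.InL (mc - A.w) fc := small _ _ (by omega) (by omega) (by omega) fc0 fc1
  have Lc : A.InL mc fc ↔ A.q * mc + fc < A.D := InL_pos fc0 c0 (by omega) fc1
  have hwp : (A.w : ℤ) ≤ A.p := by omega
  have hhp : (A.h : ℤ) ≤ A.p := by omega
  have k1 : mb - mj < -(A.h : ℤ) := by rcases lo with h | h <;> omega
  have rule : ∀ Y, InA A.p Y (mb - mj - A.w) A.w → ¬ InA A.p Y (g - A.h) A.h →
      InA A.p Y (-A.w - A.h) A.w ∨ (A.InL mc fc ∧ InA A.p Y (-A.h) A.h) := by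
    intro Y h1 h2
    have h3 := R Y h1 h2
    rw [Phi_eq2 Lc' Lb Lbh, Phi_eq2 Lc' Lb Lbh] at h3
    by_contra hn
    rw [not_or] at hn
    rw [if_neg hn.1, if_neg hn.2] at h3
    rcases lt_or_ge (-(A.h : ℤ)) r with h6 | h6
    · have hL : A.InL mc fc := by
        rw [Lc]
        by_contra hn
        have := r7 (by omega)
        omega
      rw [if_pos (c := A.InL mc fc ∧ InA A.p r (-A.h) A.h)
        ⟨hL, in_of h6 (by omega) hhp⟩] at h3
      split_ifs at h3 <;> omega
    · rw [if_pos (c := InA A.p r (-A.w - A.h) A.w) (in_of r5 (by omega) hwp)] at h3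
      split_ifs at h3 <;> omega
  by_cases hL : A.InL mc fc
  · refine gh_free2 (p := A.p) (w := A.w) (h := A.h) (k := mb - mj) (r := r) (g := g) (mb := mb)
      (mc := mc) (V := mc + g) (by omega) (by omega) V0 (by ring) c0 ?_ b0
      (by rcases hi with h | h <;> omega) k1 r1 r2 r3 (by omega) ?_
    · have e1 := Lc.1 hL
      have : A.q * (g + A.h) = A.q * (mc + g + A.h) - A.q * mc := by ring
      by_contra hn
      have : A.q * (g + A.h) ≤ A.q * (-1) := mul_le_mul_of_nonneg_left (by omega) hq.le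
      have hq4 : (4 : ℤ) < A.q := by
        have : (A.p : ℤ) < A.q := by exact_mod_cast A.pq
        omega
      rcases A.hsg with h' | h' <;> rw [h'] at hfi <;> omega
    · intro Y h1 h2
      rcases rule Y h1 h2 with h | h
      · exact Or.inl h
      · exact Or.inr h.2
  · have hr' : r ≤ -A.h := r7 (by rw [Lc] at hL; omega)
    refine gh_free1 (p := A.p) (w := A.w) (h := A.h) (k := mb - mj) (r := r) (g := g) (mb := mb)
      (mc := mc) (V := mc + g) (by omega) (by omega) V0 (by ring) c0 b0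
      (by rcases hi with h | h <;> omega) r5 hr' r1 r2 r3 (by omega) ?_
    intro Y h1 h2
    rcases rule Y h1 h2 with h | h
    · exact h
    · exact absurd h.1 hL

theorem ClsN.toHJ (T : A.Tie) {j m' f' s' n' : ℤ} (hj : A.ClsN j m' f' s' n')
    (hmn : m' + s' = n' - A.h ∨ m' + s' = n')
    (hc : j = T.t ∨ ((A.w : ℤ) ≤ m' ∧ m' < A.p - A.w)) (hmh : A.md < A.h)
    (hDp : 2 * (A.p : ℤ) ≤ A.D) : ∃ mj, HJ A j (n' - A.h) f' mj ∧
      (j = T.t ∨ ((A.w : ℤ) ≤ mj ∧ mj < A.p - A.w)) := by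
  have th := hj.th
  have th2 := hj.th2 hDp
  have f0 := hj.1.2.2.1
  have f1 := hj.1.2.2.2.1
  have hw := A.hw
  have w2 := A.w2
  have hp := A.p_pos'
  have hpq : (A.p : ℤ) < A.q := by exact_mod_cast A.pq
  have mk : ∀ mj : ℤ, (A.p : ℤ) ∣ mj - m' → ((A.w : ℤ) ≤ mj ∨ (mj = A.w - 1 ∧ f' = A.q - 1)) →
      (mj < A.p - A.w ∨ (mj = A.p - A.w ∧ f' = 1)) →
      (j = T.t ∨ ((A.w : ℤ) ≤ mj ∧ mj < A.p - A.w)) → ∃ mj, HJ A j (n' - A.h) f' mj ∧
      (j = T.t ∨ ((A.w : ℤ) ≤ mj ∧ mj < A.p - A.w)) := by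
    rintro mj ⟨z, hz⟩ h1 h2 h3
    have hj' := hj.1.shift z (-z)
    refine ⟨mj, ⟨⟨_, _, hj', ?_⟩, by omega, by omega, f0, f1, ?_, h1, h2⟩, h3⟩
    · rw [mul_neg]
      rcases hmn with h | h
      · left; constructor <;> omega
      · right; constructor <;> omega
    · rw [sub_add_cancel]; omega
  rcases hc with hc | ⟨h1, h2⟩
  · have ht := T.tie
    have hcl := hj.1.2.2.2.2.1
    rw [hc] at hcl
    have hd := dvd_sub hcl ht
    rcases T.hep with he | he <;> rcases A.hsg with hs | hs <;> rw [he, hs] at hd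
    · have h3 : (A.p : ℤ) * A.q ∣ (A.q * A.w + 1) - (A.q * m' + f') := by
        rwa [show A.a * T.t - (A.q * m' + f') - (A.a * T.t - 1 * (A.q * A.w + 1))
          = (A.q * A.w + 1) - (A.q * m' + f') by ring] at hd
      obtain ⟨h4, h5⟩ := pos_dvd (by norm_num) (by omega) f0 f1 h3
      exact mk A.w h4 (Or.inl le_rfl) (Or.inl (by omega)) (Or.inl hc)
    · have h3 : (A.p : ℤ) * A.q ∣ (A.q * (A.w - 1) + (A.q - 1)) - (A.q * m' + f') := by
        rwa [show A.a * T.t - (A.q * m' + f') - (A.a * T.t - 1 * (A.q * A.w + -1))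
          = (A.q * (A.w - 1) + (A.q - 1)) - (A.q * m' + f') by ring] at hd
      obtain ⟨h4, h5⟩ := pos_dvd (by omega) (by omega) f0 f1 h3
      exact mk (A.w - 1) h4 (Or.inr ⟨rfl, h5.symm⟩) (Or.inl (by omega)) (Or.inl hc)
    · have h3 : (A.p : ℤ) * A.q ∣ (A.q * (A.p - A.w - 1) + (A.q - 1)) - (A.q * m' + f') := by
        have := dvd_add hd (dvd_refl ((A.p : ℤ) * A.q))
        rwa [show A.a * T.t - (A.q * m' + f') - (A.a * T.t - -1 * (A.q * A.w + 1)) + A.p * A.q
          = (A.q * (A.p - A.w - 1) + (A.q - 1)) - (A.q * m' + f') by ring] at this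
      obtain ⟨h4, h5⟩ := pos_dvd (by omega) (by omega) f0 f1 h3
      exact mk (A.p - A.w - 1) h4 (Or.inl (by omega)) (Or.inl (by omega)) (Or.inl hc)
    · have h3 : (A.p : ℤ) * A.q ∣ (A.q * (A.p - A.w) + 1) - (A.q * m' + f') := by
        have := dvd_add hd (dvd_refl ((A.p : ℤ) * A.q))
        rwa [show A.a * T.t - (A.q * m' + f') - (A.a * T.t - -1 * (A.q * A.w + -1)) + A.p * A.q
          = (A.q * (A.p - A.w) + 1) - (A.q * m' + f') by ring] at this
      obtain ⟨h4, h5⟩ := pos_dvd (by norm_num) (by omega) f0 f1 h3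
      exact mk (A.p - A.w) h4 (Or.inl (by omega)) (Or.inr ⟨rfl, h5.symm⟩) (Or.inl hc)
  · exact mk m' (by rw [sub_self]; exact dvd_zero _) (Or.inl h1) (Or.inl h2) (Or.inr ⟨h1, h2⟩)

/-- `i` is not special -/
def Tie.NS (T : A.Tie) (i : ℤ) : Prop := i ≠ T.t ∧ ¬ (T.ep = 1 ∧ i + T.t = A.p)

/-- two low-far classes with the same inner line `(m, f)` -/
structure Tie.Pr (T : A.Tie) (jl jr m f g : ℤ) : Prop where
  M : T.MLn jl jr m f g
  m0 : 0 ≤ m
  mw : m < A.w
  hD : A.D ≤ A.q * m + f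
  v0 : m + g < 0
  v1 : A.D < A.q * (m + g + A.h) + f
  u0 : m + (g - T.x) < 0
  u1 : A.D < A.q * (m + (g - T.x) + A.h) + (f - A.sg)
  nl : T.NS jl
  nr : T.NS jr

/-- the merged case -/
theorem Tie.lowM (F : A.Fl) (T : A.Tie) (hx0 : T.x ≠ 0) (hx : |T.x| < A.h) (hmh : A.md < A.h)
    (hhw : A.h < A.w) (hSH : T.HSH) {j mb fj mj : ℤ} (H : HJ A j mb fj mj)
    {jl jr m f g gi fi gb fb : ℤ} (M : T.MLn jl jr m f g) (m0 : 0 ≤ m) (mw : m < A.w)
    (hi : (gi = g ∧ fi = f ∧ gb = g - T.x ∧ fb = f - A.sg) ∨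
      (gi = g - T.x ∧ fi = f - A.sg ∧ gb = g ∧ fb = f))
    (v0 : m + gi < 0) (v1 : A.D < A.q * (m + gi + A.h) + fi)
    (nl : T.NS jl) (nr : T.NS jr) (hjl : j ≠ jl) (hjr : j ≠ jr) : T.Pr jl jr m f g := by
  have hp := A.p_pos'
  have hq := A.q_pos'
  have w2 := A.w2
  have hh2 := A.h2
  have hw := A.hw
  have hh := A.hh
  have hxa := abs_lt.1 hx
  have f0 := M.1.2.2.1
  have f1 := M.1.2.2.2.1
  have fr0 := M.2.2.2.1
  have fr1 := M.2.2.2.2.1
  obtain ⟨mj', sj', cj, -⟩ := id H.hw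
  have n1 : f ≠ fj := fun h => (Cls.f_ne M.1 cj (Ne.symm hjl)) h
  have n2 : f - A.sg ≠ fj := fun h => (Cls.f_ne M.2 cj (Ne.symm hjr)) h
  have hfi : fi = f ∨ fi = f - A.sg := by rcases hi with h | h <;> simp [h.2.1]
  have hfi' : fi ≠ fj := by rcases hfi with h | h <;> rw [h] <;> assumption
  have hfi1 : fi < A.q := by rcases hfi with h | h <;> rw [h] <;> assumption
  obtain ⟨r, hr⟩ : ∃ r, r = mb - m + (if f < fj then 1 else 0) := ⟨_, rfl⟩
  obtain ⟨r1, r2, r3, r4, r5, r6, r7⟩ := H.pos hmh m0 mw f0 f1 n1 hfi hfi' hfi1 v0 v1 hr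
  have hhp : (A.h : ℤ) ≤ A.p := by omega
  have hh0 : (0 : ℤ) ≤ A.h := by omega
  have hwp : (A.w : ℤ) ≤ A.p := by omega
  have hw0 : (0 : ℤ) ≤ A.w := by omega
  have rJ : InA A.p r (gi - A.h) A.h := in_of (by omega) (by omega) hhp
  have rK : ¬ InA A.p r (mb - mj - A.w) A.w := not_in hw0 (by omega) (by omega)
  by_cases hb : InA A.p r (gb - A.h) A.h
  · -- `r` is in both arcs
    have hb' : gb - A.h < r ∧ r ≤ gb := by
      rw [InA_Ar (by omega) (by omega) (by omega)] at hb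
      unfold Ar at hb
      omega
    have hD : A.D ≤ A.q * m + f := by
      by_contra hn
      exact T.mvlow F M hx0 hx (by omega) hmh m0 (by omega) (ga := gi) (fa := fi)
        (by rcases hi with h | h <;> [left; right] <;> exact ⟨h.1, h.2.1⟩) v0 v1
    have HD := H.hD
    have b0 := H.b0
    have b1 := H.b1
    have fj1 := H.f1
    have fj0 := H.f0
    have fb0 : 0 < fb := by rcases hi with h | h <;> omega
    have fb1 : fb < A.q := by rcases hi with h | h <;> omega
    have efb : f < fj ↔ fb < fj := by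
      rcases hi with h | h
      · rw [h.2.2.2]; rcases A.hsg with h' | h' <;> rw [h'] at n2 ⊢ <;> omega
      · rw [h.2.2.2]
    -- the partner overlaps
    obtain ⟨l, ml, fl, sl, cl, nsl, hml, hfl, ml0, ml1⟩ : ∃ l ml fl sl, A.Cls l ml fl sl ∧ T.NS l ∧
        ml + sl = m + gb ∧ fl = fb ∧ -(A.w : ℤ) ≤ ml ∧ ml < A.w := by
      rcases hi with h | h
      · exact ⟨jr, _, _, _, M.2, nr, by omega, by omega, by omega, by omega⟩
      · exact ⟨jl, _, _, _, M.1, nl, by omega, by omega, by omega, by omega⟩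
    have vb0 : -(A.h : ℤ) ≤ m + gb := by split_ifs at hr <;> omega
    have hlt : m + gb ≤ mb + A.h ∧ (fj ≤ fb → m + gb < mb + A.h) := by
      constructor
      · split_ifs at hr <;> omega
      · intro h
        rw [if_neg (by rw [efb]; omega)] at hr
        omega
    have hlt2 : A.q * (m + gb) + fb < A.D := by
      rcases lt_or_ge fb fj with h | h
      · have : A.q * (m + gb) ≤ A.q * (mb + A.h) := mul_le_mul_of_nonneg_left hlt.1 hq.le
        omega
      · have h2 := hlt.2 h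
        have : A.q * (m + gb + 1) ≤ A.q * (mb + A.h) :=
          mul_le_mul_of_nonneg_left (by omega) hq.le
        rw [mul_add, mul_one] at this
        omega
    have vb1 : m + gb < A.h := by omega
    have hO : T.Ov l ml fl sl := ⟨cl, nsl.1, ml0, ml1, by omega, by omega⟩
    have e1 : A.q * (ml + sl) + fl = A.q * (m + gb) + fb := by rw [hml, hfl]
    have vbn : m + gb < 0 := by
      by_contra hn
      exact hSH hmh hhw l ml fl sl hO nsl.2 (Or.inr (Or.inl ⟨by omega, by omega⟩))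
    have vbD : A.D < A.q * (m + gb + A.h) + fb := by
      have e2 : A.q * (m + gb + A.h) = A.q * (m + gb) + A.q * A.h := by ring
      by_contra hn
      have h2 : A.q * (m + gb + A.h) + fb ≠ A.D := by
        intro h
        have hDd : A.D = A.q * A.md + A.fd := rfl
        have := pos_eq fb0 fb1 A.hfd A.hfd2 (h.trans hDd)
        rw [← hfl] at this
        exact cl.f_ne_fd this.2
      exact hSH hmh hhw l ml fl sl hO nsl.2 (Or.inl ⟨by omega, by omega⟩)
    rcases hi with ⟨h1, h2, h3, h4⟩ | ⟨h1, h2, h3, h4⟩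
    · exact ⟨M, m0, mw, hD, by rw [← h1]; exact v0, by rw [← h1, ← h2]; exact v1,
        by rw [← h3]; exact vbn, by rw [← h3, ← h4]; exact vbD, nl, nr⟩
    · exact ⟨M, m0, mw, hD, by rw [← h3]; exact vbn, by rw [← h3, ← h4]; exact vbD,
        by rw [← h1]; exact v0, by rw [← h1, ← h2]; exact v1, nl, nr⟩
  · exfalso
    refine H.line hmh hhw m0 mw f0 f1 n1 hfi hfi' hfi1 v0 v1 hr ?_
    intro Y hY1 hY2
    have E := E0m F M.1 M.2 H.hw hjl hjr hr Y
    have ec : g - T.x + A.w - A.w - A.h = g - T.x - A.h := by ring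
    unfold chi at E
    rw [ec] at E
    by_cases hYb : InA A.p Y (gb - A.h) A.h
    · refine (E.2 ?_).2
      rcases hi with ⟨h1, h2, h3, h4⟩ | ⟨h1, h2, h3, h4⟩
      · rw [h1] at hY2 rJ; rw [h3] at hYb hb
        left
        rw [if_pos rJ, if_neg hb, if_neg hY2, if_pos hYb]; norm_num
      · rw [h1] at hY2 rJ; rw [h3] at hYb hb
        right
        rw [if_neg hb, if_pos rJ, if_pos hYb, if_neg hY2]; norm_num
    · refine E.1 ?_ (iff_of_true hY1 rK)
      rcases hi with ⟨h1, h2, h3, h4⟩ | ⟨h1, h2, h3, h4⟩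
      · rw [h1] at hY2 rJ; rw [h3] at hYb hb
        left
        rw [if_pos rJ, if_neg hb, if_neg hY2, if_neg hYb]; norm_num
      · rw [h1] at hY2 rJ; rw [h3] at hYb hb
        right
        rw [if_neg hb, if_pos rJ, if_neg hYb, if_neg hY2]; norm_num

/-- every low-far class belongs to a pair -/
theorem Tie.low (F : A.Fl) (T : A.Tie) (hs : T.Single) (hx0 : T.x ≠ 0) (hx : |T.x| < A.h)
    (hmh : A.md < A.h) (hhw : A.h < A.w) (hSH : T.HSH) {j mb fj mj : ℤ} (H : HJ A j mb fj mj)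
    (HJt : j = T.t ∨ ((A.w : ℤ) ≤ mj ∧ mj < A.p - A.w))
    {i m f s : ℤ} (hO : T.Ov i m f s) (hsp : ¬ (T.ep = 1 ∧ i + T.t = A.p))
    (v0 : m + s < 0) (v1 : A.D < A.q * (m + s + A.h) + f) :
    ∃ jl jr mc fc g, T.Pr jl jr mc fc g ∧
      (m < 0 → A.q * mc + fc = A.q * m + f + (A.q * A.w + A.sg)) ∧
      (0 ≤ m → A.q * mc + fc = A.q * m + f) := by
  obtain ⟨c, hit, m0, m1, vi0, vi1⟩ := hO
  have hp := A.p_pos'
  have hq := A.q_pos'
  have w2 := A.w2
  have hh2 := A.h2
  have hw := A.hw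
  have hh := A.hh
  have t0 := T.t0
  have tp := T.tp
  have i0 := c.1
  have i1 := c.2.1
  have f0 := c.2.2.1
  have f1 := c.2.2.2.1
  have hsg := A.hsg
  have hDd : A.D = A.q * A.md + A.fd := rfl
  have hfd0 := A.hfd
  have hfd1 := A.hfd2
  have hmd0 := A.hmd
  have hqmd : 0 ≤ A.q * A.md := by positivity
  have hDlt := A.D_lt
  have hhp : (A.h : ℤ) ≤ A.p := by omega
  have hwp : (A.w : ℤ) ≤ A.p := by omega
  have hw0 : (0 : ℤ) ≤ A.w := by omega
  -- `j` is horizontally disjoint from the rectangle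
  have Jne : ∀ l ml fl sl, A.Cls l ml fl sl → -(A.w : ℤ) ≤ ml → ml < A.w → l ≠ T.t → j ≠ l := by
    rintro l ml fl sl cl h1 h2 h3 rfl
    rcases HJt with h | ⟨h4, h5⟩
    · exact h3 h
    · obtain ⟨mj0, sj0, cj0, hc⟩ := id H.hw
      obtain ⟨-, e2, -⟩ := cl.uniq cj0
      have e3 : mj0 = mj := by omega
      rw [e3, ← dvd_neg, neg_sub] at e2
      have := Int.le_of_dvd (by omega) e2
      omega
  have hjt : ∀ l ml fl sl, A.Cls l ml fl sl → -(A.w : ℤ) ≤ ml → ml < A.w → l ≠ T.t →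
      fl ≠ fj := by
    intro l ml fl sl cl h1 h2 h3
    obtain ⟨mj0, sj0, cj0, hc⟩ := id H.hw
    exact Cls.f_ne cl cj0 (Ne.symm (Jne l ml fl sl cl h1 h2 h3))
  -- free walls
  have free : ∀ mc g : ℤ, 0 ≤ mc → mc < A.w → mc + g = m + s → T.FW i mc f g → False := by
    intro mc g h1 h2 h3 h4
    have hne := hjt i m f s c m0 m1 hit
    obtain ⟨r, hr⟩ : ∃ r, r = mb - mc + (if f < fj then 1 else 0) := ⟨_, rfl⟩
    obtain ⟨r1, r2, r3, r4, r5, r6, r7⟩ := H.pos hmh h1 h2 f0 f1 hne (Or.inl rfl) hne f1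
      (by rw [h3]; exact v0) (by rw [h3]; exact v1) hr
    refine H.line hmh hhw h1 h2 f0 f1 hne (Or.inl rfl) hne f1 (by rw [h3]; exact v0)
      (by rw [h3]; exact v1) hr ?_
    intro Y hY1 hY2
    exact E0f F T hs h4 H.hw (Jne i m f s c m0 m1 hit) hr Y
      (iff_of_false hY2 (not_not.2 (in_of (by omega) (by omega) hhp)))
      (iff_of_true hY1 (not_in hw0 (by omega) (by omega)))
  obtain ⟨tz, htz⟩ := T.tie
  obtain ⟨dz, hdz⟩ := A.hd
  have ndv : ∀ x : ℤ, (A.p : ℤ) * A.q ∣ x → -((A.p : ℤ) * A.q) < x → x < (A.p : ℤ) * A.q → x = 0 :=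
    fun x h1 h2 h3 => Int.eq_zero_of_abs_lt_dvd h1 (by rw [abs_lt]; exact ⟨h2, h3⟩)
  have hqw2 : 2 * (A.q * (A.w : ℤ)) + A.q ≤ A.p * A.q := by
    have : (A.q : ℤ) * (2 * A.w + 1) ≤ A.q * A.p := mul_le_mul_of_nonneg_left (by omega) hq.le
    linarith
  have hDw : A.D < A.q * A.w := by
    have : (A.q : ℤ) * (A.md + 1) ≤ A.q * A.w := mul_le_mul_of_nonneg_left (by omega) hq.le
    omega
  have hq4 : (4 : ℤ) < A.q := by
    have : (A.p : ℤ) < A.q := by exact_mod_cast A.pq
    omega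
  -- positions in `(0, w)` are not `U_t`
  have hqm : ∀ mc : ℤ, 0 ≤ mc → mc < A.w → 0 ≤ A.q * mc ∧ A.q * mc + A.q ≤ A.q * A.w := by
    intro mc h1 h2
    constructor
    · positivity
    · have : A.q * (mc + 1) ≤ A.q * A.w := mul_le_mul_of_nonneg_left (by omega) hq.le
      rw [mul_add, mul_one] at this
      exact this
  -- the classes of a line in `(0, w)` are not special
  have NSl : ∀ jl jr mc fl g, T.MLn jl jr mc fl g → jl = jr + T.ep * T.t → 0 ≤ mc → mc < A.w →
      T.NS jl ∧ T.NS jr := by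
    intro jl jr mc fl g M hlr h1 h2
    obtain ⟨q1, q2⟩ := hqm mc h1 h2
    have l0 := M.1.1
    have l1 := M.1.2.1
    have r0 := M.2.1
    have r1 := M.2.2.1
    have fl0 := M.1.2.2.1
    have fl1 := M.1.2.2.2.1
    obtain ⟨z, hz⟩ := M.1.2.2.2.2.1
    obtain ⟨y, hy⟩ := M.2.2.2.2.2.1
    rcases T.hep with he | he
    · rw [he] at hlr htz
      refine ⟨⟨by omega, fun h => ?_⟩, ⟨fun h => ?_, by rintro ⟨-, h⟩; omega⟩⟩
      · -- `jl = p - t`
        have e1 : jl = A.p - T.t := by omega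
        rw [e1] at hz
        have := ndv (A.q * mc + fl - (A.D - (A.q * A.w + A.sg))) ⟨dz - tz - z, by
          rw [hDd]; linear_combination hdz - htz - hz⟩ (by rcases hsg with h | h <;> rw [h] <;> omega)
          (by rcases hsg with h | h <;> rw [h] <;> omega)
        rcases hsg with h' | h' <;> rw [h'] at this <;> omega
      · -- `jr = t`
        rw [h] at hy
        have := ndv (A.q * (mc - A.w) + (fl - A.sg) - (A.q * A.w + A.sg)) ⟨tz - y, by
          linear_combination htz - hy⟩ (by rw [mul_sub]; rcases hsg with h | h <;> rw [h] <;> omega)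
          (by rw [mul_sub]; rcases hsg with h | h <;> rw [h] <;> omega)
        rw [mul_sub] at this
        rcases hsg with h' | h' <;> rw [h'] at this <;> omega
    · rw [he] at hlr htz
      refine ⟨⟨fun h => ?_, by rintro ⟨h, -⟩; omega⟩, ⟨by omega, by rintro ⟨h, -⟩; omega⟩⟩
      -- `jl = t`
      rw [h] at hz
      have := ndv (A.q * mc + fl + (A.q * A.w + A.sg)) ⟨tz - z, by
        linear_combination htz - hz⟩ (by rcases hsg with h | h <;> rw [h] <;> omega)
        (by rcases hsg with h | h <;> rw [h] <;> omega)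
      rcases hsg with h' | h' <;> rw [h'] at this <;> omega
  rcases lt_or_ge m 0 with hm | hm
  · -- right wall of `i`
    have cc : A.Cls i (m + A.w - A.w) f s := by rw [add_sub_cancel_right]; exact c
    by_cases hF : T.FreeR i
    · exfalso
      refine free (m + A.w) (s - A.w) (by omega) (by omega) (by ring) (Or.inr ⟨?_, hF⟩)
      rw [sub_add_cancel]; exact cc
    · have h0 : 0 < i + T.ep * T.t ∧ i + T.ep * T.t < A.p := by
        unfold Tie.FreeR at hF
        rw [not_or] at hF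
        rcases T.hep with he | he <;> rw [he] at hF hsp ⊢
        · have h1 : ¬ ((A.p : ℤ) < i + T.t) := fun h => hF.1 ⟨rfl, h⟩
          have h2 : i + T.t ≠ A.p := fun h => hsp ⟨rfl, h⟩
          constructor <;> omega
        · have h1 : ¬ (i < T.t) := fun h => hF.2 ⟨rfl, h⟩
          constructor <;> omega
      have M := T.mkR cc h0.1 h0.2
      obtain ⟨nl, nr⟩ := NSl _ _ _ _ _ M rfl (by omega) (by omega)
      have P := T.lowM F hx0 hx hmh hhw hSH H M (by omega) (by omega) (gi := s - A.w) (fi := f)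
        (gb := s + T.x - A.w) (fb := f + A.sg) (Or.inr ⟨by ring, by ring, rfl, rfl⟩)
        (by rw [show m + A.w + (s - A.w) = m + s by ring]; exact v0)
        (by rw [show m + A.w + (s - A.w) = m + s by ring]; exact v1) nl nr
        (Jne _ _ _ _ M.1 (by omega) (by omega) nl.1) (Jne _ _ _ _ c m0 m1 hit)
      exact ⟨_, _, _, _, _, P, fun _ => by ring, fun h => absurd h (by omega)⟩
  · -- left wall of `i`
    by_cases hF : T.FreeL i
    · exfalso
      exact free m s hm m1 rfl (Or.inl ⟨c, hF⟩)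
    · have h0 : 0 < i - T.ep * T.t ∧ i - T.ep * T.t < A.p := by
        unfold Tie.FreeL at hF
        rw [not_or] at hF
        rcases T.hep with he | he
        · rw [he] at hF hsp ⊢
          have h1 : ¬ (i < T.t) := fun h => hF.1 ⟨rfl, h⟩
          constructor <;> omega
        · rw [he] at hF htz ⊢
          have h1 : ¬ ((A.p : ℤ) < i + T.t) := fun h => hF.2 ⟨rfl, h⟩
          have h2 : i + T.t ≠ A.p := by
            intro h
            have e1 : i = A.p - T.t := by omega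
            obtain ⟨z, hz⟩ := c.2.2.2.2.1
            rw [e1] at hz
            obtain ⟨q1, q2⟩ := hqm m hm m1
            have := ndv (A.q * m + f - (A.D + (A.q * A.w + A.sg))) ⟨dz - tz - z, by
              rw [hDd]; linear_combination hdz - htz - hz⟩
              (by rcases hsg with h | h <;> rw [h] <;> omega)
              (by rcases hsg with h | h <;> rw [h] <;> omega)
            rcases hsg with h' | h' <;> rw [h'] at this <;> omega
          constructor <;> omega
      have M := T.mkL c h0.1 h0.2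
      obtain ⟨nl, nr⟩ := NSl _ _ _ _ _ M (by ring) (by omega) (by omega)
      have P := T.lowM F hx0 hx hmh hhw hSH H M hm m1 (gi := s) (fi := f)
        (gb := s - T.x) (fb := f - A.sg) (Or.inl ⟨rfl, rfl, rfl, rfl⟩) v0 v1 nl nr
        (Jne _ _ _ _ c m0 m1 hit) (Jne _ _ _ _ M.2 (by omega) (by omega) nr.1)
      exact ⟨_, _, _, _, _, P, fun h => absurd h (by omega), fun _ => rfl⟩

/-- **(GH)** from (SH) and (G3) -/
theorem Tie.gh (F : A.Fl) (T : A.Tie) (hs : T.Single) (ht : T.t ≠ 1) (hx0 : T.x ≠ 0)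
    (hx : |T.x| < A.h) (hSH : T.HSH) (hG3 : T.HG3) : T.HGH := by
  intro hmh hhw i m f s hO hsp hv0 hv1 j m' f' s' n' hj hmn hjc
  have hp := A.p_pos'
  have hq := A.q_pos'
  have w2 := A.w2
  have hh2 := A.h2
  have hw := A.hw
  have hh := A.hh
  have hsg := A.hsg
  have hDd : A.D = A.q * A.md + A.fd := rfl
  have hfd0 := A.hfd
  have hfd1 := A.hfd2
  have hmd0 := A.hmd
  have hDp := T.D_ge ht
  obtain ⟨mj, H, HJt⟩ := hj.toHJ T hmn hjc hmh hDp
  have low := fun {i m f s : ℤ} (hO : T.Ov i m f s) hsp v0 v1 =>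
    T.low F hs hx0 hx hmh hhw hSH H HJt hO hsp v0 v1
  have hDw : A.D < A.q * A.w := by
    have : (A.q : ℤ) * (A.md + 1) ≤ A.q * A.w := mul_le_mul_of_nonneg_left (by omega) hq.le
    rw [mul_add, mul_one] at this
    omega
  have hqw2 : 2 * (A.q * (A.w : ℤ)) + A.q ≤ A.p * A.q := by
    have : (A.q : ℤ) * (2 * A.w + 1) ≤ A.q * A.p := mul_le_mul_of_nonneg_left (by omega) hq.le
    linarith
  obtain ⟨jl, jr, mc, fc, g, P, -, -⟩ := low hO hsp hv0 (by rw [mul_add]; omega)
  have fin := hG3 hmh hhw jl jr mc fc g P.M P.m0 P.mw P.hD P.v0 P.v1 P.u0 P.u1 P.nl.1 P.nr.1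
    P.nl.2 P.nr.2 j m' f' s' n' hj hmn hjc
  clear P
  obtain ⟨jv, m2, f2, s2, n2, hjv, hmn2, u0, u1⟩ := exists_jV A
  rcases lt_or_ge (m2 + s2) (-(A.h : ℤ)) with h2 | h2
  · have hj' : A.ClsN jv (m2 + A.p * 0) f2 (s2 + A.p * 1) n2 := ⟨hjv.1.shift 0 1, hjv.2⟩
    exact fin jv _ f2 _ n2 hj' (by rcases hmn2 with h | h <;> omega) (by omega) (by omega)
  -- `jv` overlaps
  have th := hjv.th
  have th2 := hjv.th2 hDp
  have f0 := hjv.1.2.2.1
  have f1 := hjv.1.2.2.2.1
  have hqw0 : 0 ≤ A.q * (A.w : ℤ) := by positivity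
  have e1 : A.q * m2 + f2 = A.q * n2 + f2 - A.q * A.w ∨ A.q * m2 + f2 = A.q * n2 + f2 := by
    rcases hmn2 with h | h
    · left; rw [h]; ring
    · right; rw [h]
  have hjt : jv ≠ T.t := T.not_t hjv.1 (by omega) (by omega) (by omega)
  have hOv : T.Ov jv m2 f2 s2 := ⟨hjv.1, hjt, by omega, by omega, h2, u1⟩
  have ndv : ∀ x : ℤ, (A.p : ℤ) * A.q ∣ x → -((A.p : ℤ) * A.q) < x → x < (A.p : ℤ) * A.q → x = 0 :=
    fun x h1 h2 h3 => Int.eq_zero_of_abs_lt_dvd h1 (by rw [abs_lt]; exact ⟨h2, h3⟩)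
  have hns : ¬ (T.ep = 1 ∧ jv + T.t = A.p) := by
    rintro ⟨he, h⟩
    obtain ⟨tz, htz⟩ := T.tie
    obtain ⟨dz, hdz⟩ := A.hd
    obtain ⟨z, hz⟩ := hjv.1.2.2.2.2.1
    have e2 : jv = A.p - T.t := by omega
    rw [e2] at hz
    rw [he] at htz
    have h1 := ndv (A.q * m2 + f2 - (A.D - (A.q * A.w + A.sg))) ⟨dz - tz - z, by
      rw [hDd]; linear_combination hdz - htz - hz⟩
      (by rcases e1 with h | h <;> rw [h] <;> rcases hsg with h' | h' <;> rw [h'] <;> omega)
      (by rcases e1 with h | h <;> rw [h] <;> rcases hsg with h' | h' <;> rw [h'] <;> omega)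
    rcases e1 with h | h <;> rw [h] at h1 <;> rcases hsg with h' | h' <;> rw [h'] at h1 <;> omega
  have fne : ∀ z : ℤ, A.q * z + f2 ≠ A.D := by
    intro z h
    have := pos_eq f0 f1 A.hfd A.hfd2 (h.trans hDd)
    exact hjv.1.f_ne_fd this.2
  rcases lt_or_ge (m2 + s2) 0 with hv | hv
  · rcases lt_or_ge (A.q * (m2 + s2) + f2 + A.q * A.h) A.D with h3 | h3
    · exact hSH hmh hhw jv m2 f2 s2 hOv hns (Or.inl ⟨hv, h3⟩)
    · have h4 : A.D < A.q * (m2 + s2 + A.h) + f2 := by
        refine lt_of_le_of_ne (by rw [mul_add]; omega) (Ne.symm (fne _))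
      obtain ⟨_, _, mc, fc, _, P, P1, P2⟩ := low hOv hns hv h4
      have := P.hD
      rcases hmn2 with h | h
      · have h5 := P1 (by omega)
        rcases e1 with h' | h'
        · rcases hsg with h6 | h6 <;> rw [h6] at h5 <;> omega
        · have : n2 = n2 - A.w := by
            have : A.q * (n2 - m2) = 0 := by rw [mul_sub]; omega
            rcases mul_eq_zero.1 this with h | h <;> omega
          omega
      · have h5 := P2 (by omega)
        rcases e1 with h' | h'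
        · rw [h] at h'; omega
        · omega
  · rcases lt_or_ge (A.q * (m2 + s2) + f2) A.D with h3 | h3
    · exact hSH hmh hhw jv m2 f2 s2 hOv hns (Or.inr (Or.inl ⟨hv, h3⟩))
    have h3' : A.D < A.q * (m2 + s2) + f2 := lt_of_le_of_ne h3 (Ne.symm (fne _))
    rcases hmn2 with h | h
    · refine hSH hmh hhw jv m2 f2 s2 hOv hns (Or.inr (Or.inr ⟨h3', ?_⟩))
      have : A.q * m2 + f2 = A.q * n2 + f2 - A.q * A.w := by rw [h]; ring
      rcases hsg with h6 | h6 <;> rw [h6] <;> omega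
    · -- pass to `p - jv`
      obtain ⟨m3, f3, c3, e3⟩ := hjv.1.neg'
      have e4 : A.q * m2 + f2 = A.q * n2 + f2 := by rw [h]
      have f30 := c3.2.2.1
      have f31 := c3.2.2.2.1
      have e5 : A.q * (m3 + -s2) + f3 = A.D - (A.q * (m2 + s2) + f2) := by
        rw [mul_add, mul_add, mul_neg]; omega
      have u2 : A.q * (m2 + s2) + f2 < A.q * A.h := qlt_of_lt f1 f0 u1
      have a1 : m3 + -s2 < 0 := lt_of_qlt (c := 0) hq f30 (by rw [mul_zero]; omega)
      have a2 : 0 ≤ m3 := le_of_qlt (c := 0) f31 f30 (by rw [mul_zero]; omega)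
      have a3 : m3 < A.w := lt_of_qlt hq f30 (by omega)
      have a4 : -(A.h : ℤ) ≤ m3 + -s2 := le_of_qlt f31 f30 (by rw [mul_neg]; omega)
      have h3t : A.p - jv ≠ T.t := T.not_t c3 (by omega) (by omega) (by omega)
      have hO3 : T.Ov (A.p - jv) m3 f3 (-s2) := ⟨c3, h3t, by omega, a3, a4, by omega⟩
      obtain ⟨_, _, mc, fc, _, P, P1, P2⟩ := low hO3 (by
        rintro ⟨h6, h7⟩
        exact hjt (by omega)) a1 (by
          have : A.q * (m3 + -s2 + A.h) = A.q * (m3 + -s2) + A.q * A.h := by ring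
          omega)
      have := P.hD
      have := P2 a2
      omega

end TAp

end Pool.Agent.H78.Tie
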