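import Pool.Agent.H67.NO.Glue
import Pool.Agent.H98.Flat.O.E0x

/-!
# The part (GV) of the non-overlapping theorem
-/

namespace Pool.Agent.H78.Tie

open Finset
open Pool.Agent.H98.Flat
open Pool.Agent.H67.Flat

set_option linter.dupNamespace false

namespace TAp

variable {A : TAp}

theorem in_of {p lo len x : ℤ} (h1 : lo < x) (h2 : x ≤ lo + len) (h3 : len ≤ p) :
    InA p x lo len := by
  rw [InA_iff (by omega) (by omega) h3]; left; exact ⟨h1, h2⟩

theorem in_of' {p lo len x : ℤ} (h1 : lo < x + p) (h2 : x + p ≤ lo + len) (h3 : len ≤ p) :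
    InA p x lo len := by
  rw [InA_congr (x' := x + p) (lo' := lo) ⟨-1, by ring⟩]
  exact in_of h1 h2 h3

theorem in_of'' {p lo len x : ℤ} (h1 : lo < x - p) (h2 : x - p ≤ lo + len) (h3 : len ≤ p) :
    InA p x lo len := by
  rw [InA_congr (x' := x - p) (lo' := lo) ⟨1, by ring⟩]
  exact in_of h1 h2 h3

theorem not_in {p lo len x : ℤ} (h0 : 0 ≤ len) (h1 : lo + len < x) (h2 : x ≤ lo + p)  :
    ¬ InA p x lo len := by
  rw [InA_iff (by omega) (by omega) (by omega)]; omega

theorem not_in' {p lo len x : ℤ} (h0 : 0 ≤ len) (h1 : lo + len < x + p) (h2 : x ≤ lo)  :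
    ¬ InA p x lo len := by
  rw [InA_congr (x' := x + p) (lo' := lo) ⟨-1, by ring⟩]
  exact not_in h0 h1 (by omega)

theorem InL_pos {m f : ℤ} (f0 : 0 < f) (m0 : 0 ≤ m) (m1 : m < A.p) (f1 : f < A.q) :
    A.InL m f ↔ A.q * m + f < A.D := by
  have hq := A.q_pos'
  have : A.q * m + f < (A.p : ℤ) * A.q := by
    have : (A.q : ℤ) * (m + 1) ≤ A.q * A.p := mul_le_mul_of_nonneg_left (by omega) hq.le
    linarith [mul_comm (A.p : ℤ) A.q]
  unfold InL D
  rw [Int.emod_eq_of_lt (by positivity) this]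

theorem InL_neg {m f : ℤ} (f0 : 0 < f) (m0 : -(A.p : ℤ) ≤ m) (m1 : m < 0) (f1 : f < A.q) :
    A.InL m f ↔ A.q * (m + A.p) + f < A.D := by
  rw [← InL_pos f0 (by omega) (by omega) f1]
  unfold InL
  rw [emod_congr (a := A.q * m + f) (b := A.q * (m + A.p) + f) ⟨-1, by ring⟩]

/-- `Φ` when the vertical wall is in `(0, d)` and the horizontal wall is not -/
theorem Phi_eq {mc fc mb fb : ℤ} (hc : A.InL mc fc) (hc' : ¬ A.InL (mc - A.w) fc)
    (hb : ¬ A.InL mb fb) (Y : ℤ) :
    A.Phi mc fc mb fb Y = - (if InA A.p Y (-A.h) A.h then 1 else 0)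
      - (if A.InL (mb + A.h) fb ∧ InA A.p Y (-A.w - A.h) A.w then 1 else 0) := by
  unfold Phi
  simp [hc, hc', hb]

theorem eps_pos {q a fc f : ℤ} (hq : 0 < q) (f1 : f < q) (c0 : 0 < fc)
    (h : fc - f + 1 ≤ q * a) : 0 < a + (if fc < f then 1 else 0) := by
  split_ifs with hf
  · by_contra hn
    have : a ≤ -1 := by omega
    have : q * a ≤ q * (-1) := mul_le_mul_of_nonneg_left this hq.le
    omega
  · by_contra hn
    have : a ≤ 0 := by omega
    have : q * a ≤ q * 0 := mul_le_mul_of_nonneg_left this hq.le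
    omega

/-- a merged line at `(m, f)` : left wall of `jl` (`V - c = g`), right wall of `jr` -/
def Tie.MLn (T : A.Tie) (jl jr m f g : ℤ) : Prop :=
  A.Cls jl m f g ∧ A.Cls jr (m - A.w) (f - A.sg) (g - T.x + A.w)

/-- rule E0v for a merged line -/
theorem Tie.rv (F : A.Fl) (T : A.Tie) {jl jr m f g mv fv r Y : ℤ} (M : T.MLn jl jr m f g)
    (fv0 : 0 < fv) (fv1 : fv < A.q) (hl : fv ≠ f) (hr' : fv ≠ f - A.sg)
    (hr : r = mv - m + (if f < fv then 1 else 0))
    (h : (InA A.p r (g - A.h) A.h ∧ ¬ InA A.p r (g - T.x - A.h) A.h ∧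
        ¬ InA A.p Y (g - A.h) A.h ∧ InA A.p Y (g - T.x - A.h) A.h) ∨
      (¬ InA A.p r (g - A.h) A.h ∧ InA A.p r (g - T.x - A.h) A.h ∧
        InA A.p Y (g - A.h) A.h ∧ ¬ InA A.p Y (g - T.x - A.h) A.h)) :
    A.Phi m f mv fv Y = A.Phi m f mv fv r := by
  obtain ⟨cl, cr⟩ := M
  apply E0v F cl cr fv0 fv1 hl hr' hr
  have e : g - T.x + A.w - A.w - A.h = g - T.x - A.h := by ring
  unfold chi
  rw [e]
  rcases h with ⟨h1, h2, h3, h4⟩ | ⟨h1, h2, h3, h4⟩
  · left
    rw [if_pos h1, if_neg h2, if_neg h3, if_pos h4]; norm_num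
  · right
    rw [if_neg h1, if_pos h2, if_pos h3, if_neg h4]; norm_num

/-- **merged lines in `(0, d)`** : if one of the two classes is disjoint from the rows of the
rectangle of class `0`, so is the other one, and both are above the diagonal -/
theorem Tie.mv (F : A.Fl) (T : A.Tie) {jl jr m f g ga gb : ℤ} (M : T.MLn jl jr m f g)
    (hx0 : T.x ≠ 0) (hx : |T.x| < A.h) (hmd : A.md < A.w) (hwh : A.w ≤ A.h)
    (m0 : 0 ≤ m) (c1 : A.q * m + f < A.D) (hf1 : f ≠ 1) (hf2 : f ≠ A.q - 1)
    (hf3 : f - A.sg ≠ 1) (hf4 : f - A.sg ≠ A.q - 1) (hD : 1 < A.D)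
    (hab : (ga = g ∧ gb = g - T.x) ∨ (ga = g - T.x ∧ gb = g))
    (va0 : (A.h : ℤ) ≤ m + ga) (va1 : m + ga < A.p - A.h) :
    (A.h : ℤ) ≤ m + gb ∧ m + gb < A.p - A.h ∧ (A.h : ℤ) ≤ ga ∧ (A.h : ℤ) ≤ gb := by
  have hp := A.p_pos'
  have hq := A.q_pos'
  have w2 := A.w2
  have hh2 := A.h2
  have hw := A.hw
  have hh := A.hh
  have hmd0 := A.hmd
  have hDd : A.D = A.q * A.md + A.fd := rfl
  have hfd1 := A.hfd2
  have f0 := M.1.2.2.1
  have f1 := M.1.2.2.2.1
  have fr0 := M.2.2.2.1
  have fr1 := M.2.2.2.2.1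
  have hxa := abs_lt.1 hx
  have mmd : m ≤ A.md := by
    by_contra hn
    have : A.q * (A.md + 1) ≤ A.q * m := mul_le_mul_of_nonneg_left (by omega) hq.le
    rw [mul_add, mul_one] at this
    omega
  have hq4 : (4 : ℤ) < A.q := by
    have : (A.p : ℤ) < A.q := by exact_mod_cast A.pq
    omega
  have Lc : A.InL m f := (InL_pos f0 m0 (by omega) f1).2 c1
  have big : ∀ z y : ℤ, A.md < z → z < A.p → 0 < y → y < A.q → ¬ A.InL z y := by
    intro z y h1 h2 h3 h4 h5
    rw [InL_pos h3 (by omega) h2 h4] at h5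
    have : A.q * (A.md + 1) ≤ A.q * z := mul_le_mul_of_nonneg_left (by omega) hq.le
    rw [mul_add, mul_one] at this
    omega
  have Lc' : ¬ A.InL (m - A.w) f := by
    rw [InL_neg f0 (by omega) (by omega) f1]
    intro h
    have : A.q * (A.md + 1) ≤ A.q * (m - A.w + A.p) :=
      mul_le_mul_of_nonneg_left (by omega) hq.le
    rw [mul_add, mul_one] at this
    omega
  have hh0 : (0 : ℤ) ≤ A.h := by omega
  have hw0 : (0 : ℤ) ≤ A.w := by omega
  have hhp : (A.h : ℤ) ≤ A.p := by omega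
  have hwp : (A.w : ℤ) ≤ A.p := by omega
  have rule : ∀ {mv fv r Y : ℤ}, 0 < fv → fv < A.q → fv ≠ f → fv ≠ f - A.sg →
      r = mv - m + (if f < fv then 1 else 0) →
      ((InA A.p r (gb - A.h) A.h ∧ ¬ InA A.p r (ga - A.h) A.h ∧
        InA A.p Y (ga - A.h) A.h ∧ ¬ InA A.p Y (gb - A.h) A.h) ∨
        (InA A.p r (ga - A.h) A.h ∧ ¬ InA A.p r (gb - A.h) A.h ∧
        InA A.p Y (gb - A.h) A.h ∧ ¬ InA A.p Y (ga - A.h) A.h)) →
      A.Phi m f mv fv Y = A.Phi m f mv fv r := by
    intro mv fv r Y h1 h2 h3 h4 h5 h6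
    apply T.rv F M h1 h2 h3 h4 h5
    rcases hab with ⟨e1, e2⟩ | ⟨e1, e2⟩ <;> rw [e1, e2] at h6 <;> tauto
  rcases lt_or_gt_of_ne (show ga ≠ gb by rcases hab with h | h <;> omega) with hlt | hlt
  · -- `ga < gb`
    have h1 : gb - ga < A.h := by rcases hab with h | h <;> omega
    have stepA : (A.h : ℤ) ≤ ga := by
      by_contra hc
      have e1 := rule (mv := m + ga) (fv := A.q - 1) (r := ga + 1) (Y := ga - A.h + 1)
        (by omega) (by omega) (Ne.symm hf2) (Ne.symm hf4) (by rw [if_pos (by omega)]; ring) (by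
          left
          exact ⟨in_of (by omega) (by omega) hhp, not_in hh0 (by omega) (by omega),
            in_of (by omega) (by omega) hhp, not_in' hh0 (by omega) (by omega)⟩)
      have n1 := big (m + ga) (A.q - 1) (by omega) (by omega) (by omega) (by omega)
      have n2 := big (m + ga + A.h) (A.q - 1) (by omega) (by omega) (by omega) (by omega)
      have a1 : InA A.p (ga - A.h + 1) (-A.h) A.h := in_of (by omega) (by omega) hhp
      have a2 : ¬ InA A.p (ga + 1) (-A.h) A.h := not_in hh0 (by omega) (by omega)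
      rw [Phi_eq Lc Lc' n1, Phi_eq Lc Lc' n1] at e1
      simp [a1, a2, n2] at e1
    refine ⟨by omega, ?_, stepA, by omega⟩
    by_contra hc
    have e1 := rule (mv := A.p - A.h) (fv := 1) (r := A.p - A.h - m) (Y := ga - A.h + 1)
      (by omega) (by omega) (Ne.symm hf1) (Ne.symm hf3) (by rw [if_neg (by omega)]; ring) (by
        left
        exact ⟨in_of (by omega) (by omega) hhp, not_in hh0 (by omega) (by omega),
          in_of (by omega) (by omega) hhp, not_in' hh0 (by omega) (by omega)⟩)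
    have L1 : A.InL ((A.p : ℤ) - A.h + A.h) 1 := by
      rw [sub_add_cancel]
      have : A.InL (0 : ℤ) 1 := (InL_pos (by norm_num) le_rfl hp (by omega)).2 (by omega)
      unfold InL at this ⊢
      rwa [emod_congr (b := A.q * 0 + 1) ⟨1, by ring⟩]
    have n1 := big (A.p - A.h) 1 (by omega) (by omega) (by omega) (by omega)
    have a1 : ¬ InA A.p (ga - A.h + 1) (-A.h) A.h := not_in hh0 (by omega) (by omega)
    have a2 : ¬ InA A.p (ga - A.h + 1) (-A.w - A.h) A.w := not_in hw0 (by omega) (by omega)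
    have a3 : ¬ InA A.p (A.p - A.h - m) (-A.h) A.h := not_in hh0 (by omega) (by omega)
    have a4 : InA A.p (A.p - A.h - m) (-A.w - A.h) A.w := in_of'' (by omega) (by omega) hwp
    rw [Phi_eq Lc Lc' n1, Phi_eq Lc Lc' n1, if_neg a1, if_neg (fun h => a2 h.2), if_neg a3,
      if_pos ⟨L1, a4⟩] at e1
    norm_num at e1
  · -- `gb < ga`
    have h1 : ga - gb < A.h := by rcases hab with h | h <;> omega
    have stepA : (A.h : ℤ) ≤ gb := by
      by_contra hc
      obtain ⟨Y, hY0, hY1, hY2, hY3⟩ : ∃ Y : ℤ, Y ≤ 0 ∧ Y ≤ ga - A.h ∧ gb - A.h < Y ∧ -A.w < Y := by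
        rcases le_total (ga - A.h) 0 with h | h
        · exact ⟨ga - A.h, h, le_rfl, by omega, by omega⟩
        · exact ⟨0, le_rfl, h, by omega, by omega⟩
      have e1 := rule (mv := m + ga - 1) (fv := A.q - 1) (r := ga) (Y := Y)
        (by omega) (by omega) (Ne.symm hf2) (Ne.symm hf4) (by rw [if_pos (by omega)]; ring) (by
          right
          exact ⟨in_of (by omega) (by omega) hhp, not_in hh0 (by omega) (by omega),
            in_of (by omega) (by omega) hhp, not_in' hh0 (by omega) (by omega)⟩)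
      have n1 : ¬ A.InL (m + ga - 1) (A.q - 1) := by
        rw [InL_pos (by omega) (by omega) (by omega) (by omega)]
        have : A.q * A.md ≤ A.q * (m + ga - 1) := mul_le_mul_of_nonneg_left (by omega) hq.le
        omega
      have n2 := big (m + ga - 1 + A.h) (A.q - 1) (by omega) (by omega) (by omega) (by omega)
      have a1 : InA A.p Y (-A.h) A.h := in_of (by omega) (by omega) hhp
      have a2 : ¬ InA A.p ga (-A.h) A.h := not_in hh0 (by omega) (by omega)
      rw [Phi_eq Lc Lc' n1, Phi_eq Lc Lc' n1] at e1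
      simp [a1, a2, n2] at e1
    exact ⟨by omega, by omega, by omega, stepA⟩

/-- classes with fractional part `± 1 / q` -/
theorem Tie.edge (T : A.Tie) {i m f s η : ℤ} (c : A.Cls i m f s) (hη : η = 1 ∨ η = -1)
    (hf : (A.q : ℤ) ∣ f - η) :
    (A.p : ℤ) * A.q ∣ A.q * m + f - η * (A.sg * A.q * A.w + 1) := by
  have hp := A.p_pos'
  have hq := A.q_pos'
  have hpq : (A.p : ℤ) < A.q := by exact_mod_cast A.pq
  have t0 := T.t0
  have tp := T.tp
  obtain ⟨i0, i1, f0, f1, ⟨z, hz⟩, -⟩ := c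
  obtain ⟨y, hy⟩ := T.tie
  obtain ⟨b, hb⟩ := A.hpa
  obtain ⟨v, hv⟩ := hf
  have e2 : T.ep * T.ep = 1 := by rcases T.hep with h | h <;> rw [h] <;> norm_num
  have s2 : A.sg * A.sg = 1 := by rcases A.hsg with h | h <;> rw [h] <;> norm_num
  have n2 : η * η = 1 := by rcases hη with h | h <;> rw [h] <;> norm_num
  have hc : η * T.ep * A.sg = 1 ∨ η * T.ep * A.sg = -1 := by
    rcases hη with h | h <;> rcases T.hep with h' | h' <;> rcases A.hsg with h'' | h'' <;>
      rw [h, h', h''] <;> norm_num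
  have hd : (A.q : ℤ) ∣ i - η * T.ep * A.sg * T.t := by
    apply A.q_dvd_of
    refine ⟨m + v + A.p * z - η * A.sg * A.w - η * T.ep * A.sg * A.p * y, ?_⟩
    linear_combination hz - η * T.ep * A.sg * hy + hv - η * A.sg * (A.q * A.w + A.sg) * e2
      - η * s2
  rcases hc with h | h
  · have e : η = T.ep * A.sg := by linear_combination T.ep * A.sg * h - η * A.sg * A.sg * e2 - η * s2
    rw [h, one_mul] at hd
    have hi : i - T.t = 0 := by
      refine Int.eq_zero_of_abs_lt_dvd hd ?_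
      rw [abs_lt]; constructor <;> omega
    refine ⟨y - z, ?_⟩
    rw [e]
    have hi' : i = T.t := by omega
    rw [hi'] at hz
    linear_combination hy - hz - T.ep * (A.q * A.w) * s2
  · have e : η = -(T.ep * A.sg) := by
      linear_combination T.ep * A.sg * h - η * A.sg * A.sg * e2 - η * s2
    rw [h, neg_one_mul, sub_neg_eq_add] at hd
    obtain ⟨u, hu⟩ := hd
    have u1 : u = 1 := by
      have h1 : 0 < A.q * u := by omega
      have h2 : 0 < u := (mul_pos_iff_of_pos_left hq).1 h1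
      by_contra hn
      have h3 : (A.q : ℤ) * 2 ≤ A.q * u := mul_le_mul_of_nonneg_left (by omega) hq.le
      omega
    rw [u1, mul_one] at hu
    have hi' : i = A.q - T.t := by omega
    refine ⟨b - y - z, ?_⟩
    rw [e]
    rw [hi'] at hz
    linear_combination A.q * hb - hz - hy + T.ep * (A.q * A.w) * s2

/-- the fractional parts of a merged line in `(0, d)` -/
theorem Tie.mln_edge (T : A.Tie) {jl jr m f g : ℤ} (M : T.MLn jl jr m f g)
    (hmd : A.md < A.w) (m0 : 0 ≤ m) (c1 : A.q * m + f < A.D) :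
    f ≠ 1 ∧ f ≠ A.q - 1 ∧ f - A.sg ≠ 1 ∧ f - A.sg ≠ A.q - 1 := by
  have hp := A.p_pos'
  have hq := A.q_pos'
  have w2 := A.w2
  have hw := A.hw
  have f0 := M.1.2.2.1
  have hDd : A.D = A.q * A.md + A.fd := rfl
  have hfd1 := A.hfd2
  have mmd : m ≤ A.md := by
    by_contra hn
    have : A.q * (A.md + 1) ≤ A.q * m := mul_le_mul_of_nonneg_left (by omega) hq.le
    rw [mul_add, mul_one] at this
    omega
  have key : ∀ x : ℤ, (A.p : ℤ) * A.q ∣ A.q * x → -(A.p : ℤ) < x → x < A.p → x = 0 := by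
    intro x h1 h2 h3
    have h4 : (A.p : ℤ) ∣ x := by
      obtain ⟨z, hz⟩ := h1
      refine ⟨z, mul_left_cancel₀ hq.ne' ?_⟩
      linear_combination hz
    exact Int.eq_zero_of_abs_lt_dvd h4 (by rw [abs_lt]; constructor <;> omega)
  refine ⟨?_, ?_, ?_, ?_⟩
  · intro h
    have h1 := T.edge M.1 (Or.inl rfl) (by rw [h, sub_self]; exact dvd_zero _)
    rw [h, show A.q * m + 1 - 1 * (A.sg * A.q * A.w + 1) = A.q * (m - A.sg * A.w) by ring] at h1
    rcases A.hsg with h2 | h2 <;> rw [h2] at h1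
    · have := key _ h1 (by omega) (by omega); omega
    · have := key _ h1 (by omega) (by omega); omega
  · intro h
    have h1 := T.edge M.1 (η := -1) (Or.inr rfl) ⟨1, by rw [h]; ring⟩
    rw [h, show A.q * m + (A.q - 1) - -1 * (A.sg * A.q * A.w + 1)
      = A.q * (m + 1 + A.sg * A.w) by ring] at h1
    rcases A.hsg with h2 | h2 <;> rw [h2] at h1
    · have := key _ h1 (by omega) (by omega); omega
    · have h3 := key _ h1 (by omega) (by omega)
      have : A.md = m := by omega
      rw [this] at hDd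
      omega
  · intro h
    have h1 := T.edge M.2 (Or.inl rfl) (by rw [h, sub_self]; exact dvd_zero _)
    rw [h, show A.q * (m - A.w) + 1 - 1 * (A.sg * A.q * A.w + 1)
      = A.q * (m - A.w - A.sg * A.w) by ring] at h1
    rcases A.hsg with h2 | h2 <;> rw [h2] at h1
    · have := key _ h1 (by omega) (by omega); omega
    · have := key _ h1 (by omega) (by omega)
      rw [h2] at h
      omega
  · intro h
    have h1 := T.edge M.2 (η := -1) (Or.inr rfl) ⟨1, by rw [h]; ring⟩
    rw [h, show A.q * (m - A.w) + (A.q - 1) - -1 * (A.sg * A.q * A.w + 1)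
      = A.q * (m - A.w + 1 + A.sg * A.w) by ring] at h1
    rcases A.hsg with h2 | h2 <;> rw [h2] at h1
    · have := key _ h1 (by omega) (by omega); omega
    · have := key _ h1 (by omega) (by omega); omega

/-- the class at the right wall of the merged line of a left wall -/
theorem Tie.mkL (T : A.Tie) {j m f s : ℤ} (c : A.Cls j m f s) (h0 : 0 < j - T.ep * T.t)
    (h1 : j - T.ep * T.t < A.p) : T.MLn j (j - T.ep * T.t) m f s := by
  have hq := A.q_pos'
  have e2 : T.ep * T.ep = 1 := by rcases T.hep with h | h <;> rw [h] <;> norm_num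
  refine ⟨c, h0, h1, ?_⟩
  obtain ⟨i0, i1, f0, f1, ⟨z, hz⟩, ⟨z', hz'⟩⟩ := c
  obtain ⟨y, hy⟩ := T.tie
  obtain ⟨y', hy'⟩ := T.row
  have hU : A.a * (j - T.ep * T.t) - (A.q * (m - A.w) + (f - A.sg))
      = (A.p : ℤ) * A.q * (z - T.ep * y) := by
    linear_combination hz - T.ep * hy - (A.q * A.w + A.sg) * e2
  have hn := not_dvd_ai (A := A) h0 h1.le
  have n0 : f - A.sg ≠ 0 := by
    intro h
    apply hn
    rw [h] at hU
    exact ⟨m - A.w + A.p * (z - T.ep * y), by linear_combination hU⟩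
  have n1 : f - A.sg ≠ A.q := by
    intro h
    apply hn
    rw [h] at hU
    exact ⟨m - A.w + 1 + A.p * (z - T.ep * y), by linear_combination hU⟩
  refine ⟨?_, ?_, ⟨z - T.ep * y, hU⟩, ⟨z' - T.ep * y', ?_⟩⟩
  · rcases A.hsg with h | h <;> rw [h] at n0 n1 ⊢ <;> omega
  · rcases A.hsg with h | h <;> rw [h] at n0 n1 ⊢ <;> omega
  · linear_combination hz' - T.ep * hy' - (T.x - A.w) * e2

/-- the class at the left wall of the merged line of a right wall -/
theorem Tie.mkR (T : A.Tie) {j m f s : ℤ} (c : A.Cls j (m - A.w) f s) (h0 : 0 < j + T.ep * T.t)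
    (h1 : j + T.ep * T.t < A.p) : T.MLn (j + T.ep * T.t) j m (f + A.sg) (s + T.x - A.w) := by
  have hq := A.q_pos'
  have e2 : T.ep * T.ep = 1 := by rcases T.hep with h | h <;> rw [h] <;> norm_num
  have hc := c
  obtain ⟨i0, i1, f0, f1, ⟨z, hz⟩, ⟨z', hz'⟩⟩ := c
  obtain ⟨y, hy⟩ := T.tie
  obtain ⟨y', hy'⟩ := T.row
  have hU : A.a * (j + T.ep * T.t) - (A.q * m + (f + A.sg))
      = (A.p : ℤ) * A.q * (z + T.ep * y) := by
    linear_combination hz + T.ep * hy + (A.q * A.w + A.sg) * e2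
  have hn := not_dvd_ai (A := A) h0 h1.le
  have n0 : f + A.sg ≠ 0 := by
    intro h
    apply hn
    rw [h] at hU
    exact ⟨m + A.p * (z + T.ep * y), by linear_combination hU⟩
  have n1 : f + A.sg ≠ A.q := by
    intro h
    apply hn
    rw [h] at hU
    exact ⟨m + 1 + A.p * (z + T.ep * y), by linear_combination hU⟩
  refine ⟨⟨h0, h1, ?_, ?_, ⟨z + T.ep * y, hU⟩, ⟨z' + T.ep * y', ?_⟩⟩, ?_⟩
  · rcases A.hsg with h | h <;> rw [h] at n0 n1 ⊢ <;> omega
  · rcases A.hsg with h | h <;> rw [h] at n0 n1 ⊢ <;> omega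
  · linear_combination hz' + T.ep * hy' + (T.x - A.w) * e2
  · rwa [add_sub_cancel_right, show s + T.x - A.w - T.x + A.w = s by ring]

/-- arithmetic of the free case -/
theorem gv_free {p w h n g k r : ℤ} {L : Prop} (w0 : 0 < w) (hwh : w ≤ h) (w2 : 2 * w < p)
    (h2 : 2 * h < p) (n0 : 0 ≤ n) (nw : n < w) (v0 : h ≤ n + g) (v1 : n + g < p - h)
    (r1 : r ≤ k) (r0 : k - w < r) (rn : r ≤ -n) (k0 : -h < k) (kw : k < w)
    (rg : -h - n ≤ r) (h1 : ¬ L → -h < r) (h2' : L → k ≤ w - h)
    (rule : ∀ Y, InA p Y (g - h) h → ¬ InA p Y (k - w) w →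
      InA p Y (-h) h ∨ (L ∧ InA p Y (-w - h) w)) : False := by
  have R1 := rule g (in_of (by omega) (by omega) (by omega))
  rw [InA_Ar (by omega) (by omega) (by omega), InA_Ar (by omega) (by omega) (by omega),
    InA_Ar (by omega) (by omega) (by omega)] at R1
  unfold Ar at R1
  by_cases hL : L
  · have := h2' hL
    rcases le_total (g - h) 0 with h3 | h3
    · have R2 := rule 1 (in_of (by omega) (by omega) (by omega))
      rw [InA_Ar (by omega) (by omega) (by omega), InA_Ar (by omega) (by omega) (by omega),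
        InA_Ar (by omega) (by omega) (by omega)] at R2
      unfold Ar at R2
      omega
    · have R2 := rule (g - h + 1) (in_of (by omega) (by omega) (by omega))
      rw [InA_Ar (by omega) (by omega) (by omega), InA_Ar (by omega) (by omega) (by omega),
        InA_Ar (by omega) (by omega) (by omega)] at R2
      unfold Ar at R2
      omega
  · have := h1 hL
    simp only [hL, false_and, or_false] at R1 rule
    rcases le_total (g - h) 0 with h3 | h3
    · have R2 := rule 1 (in_of (by omega) (by omega) (by omega))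
      rw [InA_Ar (by omega) (by omega) (by omega), InA_Ar (by omega) (by omega) (by omega)] at R2
      unfold Ar at R2
      omega
    · have R2 := rule (g - h + 1) (in_of (by omega) (by omega) (by omega))
      rw [InA_Ar (by omega) (by omega) (by omega), InA_Ar (by omega) (by omega) (by omega)] at R2
      unfold Ar at R2
      omega

/-- arithmetic of the merged case -/
theorem gv_merged {p w h n gm gp k r : ℤ} {L : Prop} (hwh : w ≤ h) (w2 : 2 * w < p)
    (h2 : 2 * h < p) (n0 : 0 ≤ n) (nw : n < w) (v0 : h ≤ gm) (v1 : n + gp < p - h)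
    (g1 : gm < gp) (g2 : gp - gm < h)
    (r1 : r ≤ k) (r0 : k - w < r) (rn : r ≤ 0) (k0 : -h < k) (kw : k < w)
    (h2' : L → k ≤ w - h)
    (rule : ∀ Y, ((gm - h < Y ∧ Y ≤ gp - h) ∨ (gm < Y ∧ Y ≤ gp)) → ¬ InA p Y (k - w) w →
      InA p Y (-h) h ∨ (L ∧ InA p Y (-w - h) w)) : False := by
  have R1 := rule (gm - h + 1) (by omega)
  have R2 := rule (gp - h) (by omega)
  have R3 := rule (gm + 1) (by omega)
  have R4 := rule gp (by omega)
  rw [InA_Ar (by omega) (by omega) (by omega), InA_Ar (by omega) (by omega) (by omega),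
    InA_Ar (by omega) (by omega) (by omega)] at R1 R2 R3 R4
  unfold Ar at R1 R2 R3 R4
  by_cases hL : L
  · have := h2' hL
    omega
  · simp only [hL, false_and, or_false] at R1 R2 R3 R4
    clear R1
    omega

/-- an overlapping class and a class disjoint from the rows of the rectangle are different -/
theorem ne_of_rows {i m f s j m' f' s' : ℤ} (c : A.Cls i m f s) (c' : A.Cls j m' f' s')
    (v0 : -(A.h : ℤ) ≤ m + s) (v1 : m + s < A.h) (w0 : (A.h : ℤ) ≤ m' + s')
    (w1 : m' + s' < A.p - A.h) : i ≠ j := by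
  rintro rfl
  obtain ⟨-, h1, h2⟩ := c'.uniq c
  have h3 := dvd_add h1 h2
  have := Int.le_of_dvd (by omega) h3
  omega

/-- **(GV)** -/
theorem Tie.gv (F : A.Fl) (T : A.Tie) (hs : T.Single) (ht : T.t ≠ 1) (hx0 : T.x ≠ 0)
    (hx : |T.x| < A.h) : T.HGV := by
  intro hmd hwh i m f s hO hm hUD j m' f' s' n' hj hmn v0 v1
  obtain ⟨c, hit, m0, m1, vi0, vi1⟩ := hO
  have hp := A.p_pos'
  have hq := A.q_pos'
  have w2 := A.w2
  have hh2 := A.h2
  have hw := A.hw
  have hh := A.hh
  have hmd0 := A.hmd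
  have hsg := A.hsg
  have hDd : A.D = A.q * A.md + A.fd := rfl
  have hfd1 := A.hfd2
  have hfd0 := A.hfd
  have f0 := c.2.2.1
  have f1 := c.2.2.2.1
  have hxa := abs_lt.1 hx
  have hij := ne_of_rows c hj.1 vi0 vi1 v0 v1
  have th := hj.th
  have th2 := hj.th2 (T.D_ge ht)
  have hDp := T.D_ge ht
  have f0' := hj.1.2.2.1
  have f1' := hj.1.2.2.2.1
  have hq4 : (4 : ℤ) < A.q := by
    have : (A.p : ℤ) < A.q := by exact_mod_cast A.pq
    omega
  have hDw : A.D < A.q * A.w := by
    have : (A.q : ℤ) * (A.md + 1) ≤ A.q * A.w := mul_le_mul_of_nonneg_left (by omega) hq.le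
    rw [mul_add, mul_one] at this
    omega
  have hqw2 : 2 * (A.q * (A.w : ℤ)) + A.q ≤ A.p * A.q := by
    have : (A.q : ℤ) * (2 * A.w + 1) ≤ A.q * A.p := mul_le_mul_of_nonneg_left (by omega) hq.le
    linarith
  -- the horizontal wall of `i`
  obtain ⟨mb, k, hHW, b0, b1, hk⟩ : ∃ mb k, A.HW i mb f k ∧ -(A.h : ℤ) ≤ mb ∧ mb < 0 ∧
      mb = m + k := by
    rcases lt_or_ge (m + s) 0 with h | h
    · exact ⟨m + s, s, ⟨m, s, c, Or.inl ⟨rfl, rfl⟩⟩, vi0, h, rfl⟩
    · exact ⟨m + s - A.h, s - A.h, ⟨m, s, c, Or.inr ⟨rfl, rfl⟩⟩, by omega, by omega, by ring⟩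
  have big : ∀ z y : ℤ, A.md < z → z < A.p → 0 < y → y < A.q → ¬ A.InL z y := by
    intro z y h1 h2 h3 h4 h5
    rw [InL_pos h3 (by omega) h2 h4] at h5
    have : A.q * (A.md + 1) ≤ A.q * z := mul_le_mul_of_nonneg_left (by omega) hq.le
    rw [mul_add, mul_one] at this
    omega
  have small : ∀ z y : ℤ, -(A.p : ℤ) ≤ z → z < 0 → A.md < z + A.p → 0 < y → y < A.q →
      ¬ A.InL z y := by
    intro z y h1 h2 h3 h4 h5 h6
    rw [InL_neg h4 h1 h2 h5] at h6
    have : A.q * (A.md + 1) ≤ A.q * (z + A.p) := mul_le_mul_of_nonneg_left (by omega) hq.le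
    rw [mul_add, mul_one] at this
    omega
  have Lb : ¬ A.InL mb f := small _ _ (by omega) b1 (by omega) f0 f1
  have Lc' : ∀ fc : ℤ, 0 < fc → fc < A.q → ¬ A.InL (n' - A.w) fc := fun fc h1 h2 =>
    small _ _ (by omega) (by omega) (by omega) h1 h2
  have Lc : ∀ fc : ℤ, 0 < fc → fc < A.q → A.q * n' + fc < A.D → A.InL n' fc := fun fc h1 h2 h3 =>
    (InL_pos h1 (by omega) (by omega) h2).2 h3
  have Lbh : A.InL (mb + A.h) f ↔ A.q * (mb + A.h) + f < A.D :=
    InL_pos f0 (by omega) (by omega) f1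
  -- position of the level `r`
  have posn : ∀ fc r : ℤ, 0 < fc → fc < A.q → A.q * n' + fc + 2 ≤ A.D →
      r = mb - n' + (if fc < f then 1 else 0) →
      r ≤ k ∧ k - A.w < r ∧ r ≤ -n' ∧ -(A.h : ℤ) - n' ≤ r ∧ (¬ A.InL (mb + A.h) f → -(A.h : ℤ) < r) := by
    intro fc r h1 h2 h3 h4
    have e1 : 0 < (m + A.w - n') + (if fc < f then 1 else 0) := by
      apply eps_pos hq f1 h1
      have : A.q * (m + A.w - n') = A.q * m + A.q * A.w - A.q * n' := by ring
      omega
    have e2 : ¬ A.InL (mb + A.h) f → 0 < (mb + A.h - n') + (if fc < f then 1 else 0) := by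
      intro hL
      rw [Lbh] at hL
      apply eps_pos hq f1 h1
      have : A.q * (mb + A.h - n') = A.q * (mb + A.h) - A.q * n' := by ring
      omega
    rw [h4]
    split_ifs at e1 e2 ⊢
    · refine ⟨by omega, by omega, by omega, by omega, fun h => ?_⟩
      have := e2 h; omega
    · refine ⟨by omega, by omega, by omega, by omega, fun h => ?_⟩
      have := e2 h; omega
  have kL : A.InL (mb + A.h) f → k ≤ A.w - A.h := by
    intro h
    rw [Lbh] at h
    by_contra hn
    have : (A.q : ℤ) * 1 ≤ A.q * (mb + A.h - m - A.w) :=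
      mul_le_mul_of_nonneg_left (by omega) hq.le
    have e : A.q * (mb + A.h - m - A.w) = A.q * (mb + A.h) - A.q * m - A.q * A.w := by ring
    omega
  have phi : ∀ fc r Y : ℤ, 0 < fc → fc < A.q → A.q * n' + fc + 2 ≤ A.D →
      r = mb - n' + (if fc < f then 1 else 0) → A.Phi n' fc mb f Y = A.Phi n' fc mb f r →
      InA A.p Y (-A.h) A.h ∨ (A.InL (mb + A.h) f ∧ InA A.p Y (-A.w - A.h) A.w) := by
    intro fc r Y h1 h2 h3 h4 h5
    obtain ⟨-, -, q3, q4, q5⟩ := posn fc r h1 h2 h3 h4
    rw [Phi_eq (Lc fc h1 h2 (by omega)) (Lc' fc h1 h2) Lb,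
      Phi_eq (Lc fc h1 h2 (by omega)) (Lc' fc h1 h2) Lb] at h5
    by_contra hn
    rw [not_or] at hn
    rw [if_neg hn.1, if_neg hn.2] at h5
    rcases lt_or_ge (-(A.h : ℤ)) r with h6 | h6
    · rw [if_pos (in_of h6 (by omega) (by omega))] at h5
      split_ifs at h5 <;> omega
    · have hL : A.InL (mb + A.h) f := by
        by_contra hL
        have := q5 hL; omega
      rw [if_pos (c := A.InL (mb + A.h) f ∧ InA A.p r (-A.w - A.h) A.w)
        ⟨hL, in_of (by omega) (by omega) (by omega)⟩] at h5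
      split_ifs at h5 <;> omega
  -- free walls
  have free : ∀ g, T.FW j n' f' g → n' + g = m' + s' → False := by
    intro g hF hg
    obtain ⟨r, hr⟩ : ∃ r, r = mb - n' + (if f' < f then 1 else 0) := ⟨_, rfl⟩
    obtain ⟨q1, q2, q3, q4, q5⟩ := posn f' r f0' f1' (by omega) hr
    refine gv_free (p := A.p) (w := A.w) (h := A.h) (n := n') (g := g) (k := k) (r := r)
      (L := A.InL (mb + A.h) f) (by omega) (by omega) (by omega) (by omega) (by omega) (by omega)
      (by omega) (by omega) q1 q2 q3 (by omega) (by omega) q4 q5 kL ?_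
    intro Y hY1 hY2
    apply phi f' r Y f0' f1' (by omega) hr
    have n1 : ¬ InA A.p r (g - A.h) A.h := not_in' (by omega) (by omega) (by omega)
    have n2 : InA A.p r (k - A.w) A.w := in_of q2 (by omega) (by omega)
    exact E0f F T hs hF hHW hij hr Y (iff_of_true hY1 n1) (iff_of_false hY2 (not_not.2 n2))
  -- merged walls
  have merged : ∀ jl jr fl gl, T.MLn jl jr n' fl gl → A.q * n' + fl + 2 ≤ A.D →
      (n' + gl = m' + s' ∨ n' + (gl - T.x) = m' + s') → False := by
    intro jl jr fl gl M hD hg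
    have fl0 := M.1.2.2.1
    have fl1 := M.1.2.2.2.1
    obtain ⟨z1, z2, z3, z4⟩ := T.mln_edge M hmd (by omega) (by omega)
    obtain ⟨r, hr⟩ : ∃ r, r = mb - n' + (if fl < f then 1 else 0) := ⟨_, rfl⟩
    obtain ⟨q1, q2, q3, q4, q5⟩ := posn fl r fl0 fl1 (by omega) hr
    -- both classes are disjoint from the rows of the rectangle
    obtain ⟨y1, y2, y3, y4⟩ : (A.h : ℤ) ≤ gl ∧ (A.h : ℤ) ≤ gl - T.x ∧ n' + gl < A.p - A.h ∧
        n' + (gl - T.x) < A.p - A.h := by
      rcases hg with h | h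
      · obtain ⟨e1, e2, e3, e4⟩ := T.mv F (ga := gl) (gb := gl - T.x) M hx0 hx hmd hwh (by omega)
          (by omega) z1 z2 z3 z4 (by omega) (Or.inl ⟨rfl, rfl⟩) (by omega) (by omega)
        exact ⟨e3, e4, by omega, e2⟩
      · obtain ⟨e1, e2, e3, e4⟩ := T.mv F (ga := gl - T.x) (gb := gl) M hx0 hx hmd hwh (by omega)
          (by omega) z1 z2 z3 z4 (by omega) (Or.inr ⟨rfl, rfl⟩) (by omega) (by omega)
        exact ⟨e4, e3, e2, by omega⟩
    have hil : i ≠ jl := ne_of_rows c M.1 vi0 vi1 (by omega) (by omega)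
    have hir : i ≠ jr := ne_of_rows c M.2 vi0 vi1 (by omega) (by omega)
    have n1 : ¬ InA A.p r (gl - A.h) A.h := not_in' (by omega) (by omega) (by omega)
    have n3 : ¬ InA A.p r (gl - T.x - A.h) A.h := not_in' (by omega) (by omega) (by omega)
    have n2 : InA A.p r (k - A.w) A.w := in_of q2 (by omega) (by omega)
    have rule : ∀ Y, ((InA A.p Y (gl - A.h) A.h ∧ ¬ InA A.p Y (gl - T.x - A.h) A.h) ∨
        (¬ InA A.p Y (gl - A.h) A.h ∧ InA A.p Y (gl - T.x - A.h) A.h)) →
        ¬ InA A.p Y (k - A.w) A.w →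
        InA A.p Y (-A.h) A.h ∨ (A.InL (mb + A.h) f ∧ InA A.p Y (-A.w - A.h) A.w) := by
      intro Y hY1 hY2
      apply phi fl r Y fl0 fl1 (by omega) hr
      refine (E0m F M.1 M.2 hHW hil hir hr Y).1 ?_ (iff_of_false hY2 (not_not.2 n2))
      unfold chi
      rw [show gl - T.x + A.w - A.w - A.h = gl - T.x - A.h by ring, if_neg n1, if_neg n3]
      rcases hY1 with ⟨h1, h2⟩ | ⟨h1, h2⟩
      · right; rw [if_pos h1, if_neg h2]; norm_num
      · left; rw [if_neg h1, if_pos h2]; norm_num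
    have hhp : (A.h : ℤ) ≤ A.p := by omega
    have hh0 : (0 : ℤ) ≤ A.h := by omega
    rcases lt_or_gt_of_ne hx0 with hx1 | hx1
    · refine gv_merged (p := A.p) (w := A.w) (h := A.h) (n := n') (gm := gl) (gp := gl - T.x)
        (k := k) (r := r) (L := A.InL (mb + A.h) f) (by omega) (by omega) (by omega) (by omega)
        (by omega) (by omega) (by omega) (by omega) (by omega) q1 q2 (by omega) (by omega)
        (by omega) kL ?_
      intro Y hY1 hY2
      refine rule Y ?_ hY2
      rcases hY1 with ⟨h1, h2⟩ | ⟨h1, h2⟩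
      · left
        exact ⟨in_of (by omega) (by omega) hhp, not_in' hh0 (by omega) (by omega)⟩
      · right
        exact ⟨not_in hh0 (by omega) (by omega), in_of (by omega) (by omega) hhp⟩
    · refine gv_merged (p := A.p) (w := A.w) (h := A.h) (n := n') (gm := gl - T.x) (gp := gl)
        (k := k) (r := r) (L := A.InL (mb + A.h) f) (by omega) (by omega) (by omega) (by omega)
        (by omega) (by omega) (by omega) (by omega) (by omega) q1 q2 (by omega) (by omega)
        (by omega) kL ?_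
      intro Y hY1 hY2
      refine rule Y ?_ hY2
      rcases hY1 with ⟨h1, h2⟩ | ⟨h1, h2⟩
      · right
        exact ⟨not_in' hh0 (by omega) (by omega), in_of (by omega) (by omega) hhp⟩
      · left
        exact ⟨in_of (by omega) (by omega) hhp, not_in hh0 (by omega) (by omega)⟩
  have t0 := T.t0
  have tp := T.tp
  have j0 := hj.1.1
  have j1 := hj.1.2.1
  have nd : ∀ x : ℤ, (A.p : ℤ) * A.q ∣ x → 0 < x → x < (A.p : ℤ) * A.q → False := by
    intro x h1 h2 h3
    have := Int.le_of_dvd h2 h1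
    omega
  obtain ⟨tz, htz⟩ := T.tie
  obtain ⟨dz, hdz⟩ := A.hd
  obtain ⟨jz, hjz⟩ := hj.1.2.2.2.2.1
  rcases hmn with hmn | hmn
  · -- right wall of `j`
    have e0 : A.q * m' + f' = A.q * n' + f' - A.q * A.w := by rw [hmn]; ring
    by_cases hF : T.FreeR j
    · refine free (s' - A.w) (Or.inr ⟨?_, hF⟩) (by omega)
      rw [← hmn, sub_add_cancel]; exact hj.1
    · have hM : ∀ (h0 : 0 < j + T.ep * T.t) (h1 : j + T.ep * T.t < A.p), False := by
        intro h0 h1
        have M := T.mkR (j := j) (m := n') (f := f') (s := s') (by rw [← hmn]; exact hj.1) h0 h1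
        refine merged _ _ _ _ M ?_ (Or.inr (by rw [hmn]; ring))
        have d1 := M.1.p_dvd
        have d2 : (A.p : ℤ) ∣ A.D := p_dvd_D' A
        have d3 := Int.le_of_dvd (by rcases hsg with h | h <;> rw [h] <;> omega) (dvd_sub d2 d1)
        omega
      unfold Tie.FreeR at hF
      rw [not_or] at hF
      rcases T.hep with he | he
      · rw [he] at hF hM htz
        have h1 : ¬ ((A.p : ℤ) < j + T.t) := fun h => hF.1 ⟨rfl, h⟩
        rw [one_mul] at hM
        by_cases h2 : j + T.t = A.p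
        · have e1 : j = A.p - T.t := by omega
          rw [e1] at hjz
          refine nd (A.D - (A.q * n' + f') - A.sg) ⟨jz - dz + tz, ?_⟩ ?_ ?_
          · rw [hDd]; rw [e0] at hjz; linear_combination hjz - hdz + htz
          · rcases hsg with h | h <;> rw [h] <;> omega
          · rcases hsg with h | h <;> rw [h] <;> omega
        · exact hM (by omega) (by omega)
      · rw [he] at hF hM htz
        have h1 : ¬ (j < T.t) := fun h => hF.2 ⟨rfl, h⟩
        by_cases h2 : j = T.t
        · rw [h2] at hjz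
          refine nd (A.q * n' + f' + A.sg) ⟨tz - jz, ?_⟩ ?_ ?_
          · rw [e0] at hjz; linear_combination htz - hjz
          · rcases hsg with h | h <;> rw [h] <;> omega
          · rcases hsg with h | h <;> rw [h] <;> omega
        · exact hM (by omega) (by omega)
  · -- left wall of `j`
    have e0 : A.q * m' + f' = A.q * n' + f' := by rw [hmn]
    by_cases hF : T.FreeL j
    · refine free s' (Or.inl ⟨?_, hF⟩) (by omega)
      rw [← hmn]; exact hj.1
    · have hM : ∀ (h0 : 0 < j - T.ep * T.t) (h1 : j - T.ep * T.t < A.p), False := by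
        intro h0 h1
        have M := T.mkL (j := j) (m := n') (f := f') (s := s') (by rw [← hmn]; exact hj.1) h0 h1
        exact merged _ _ _ _ M (by omega) (Or.inl (by omega))
      unfold Tie.FreeL at hF
      rw [not_or] at hF
      rcases T.hep with he | he
      · rw [he] at hF hM htz
        have h1 : ¬ (j < T.t) := fun h => hF.1 ⟨rfl, h⟩
        by_cases h2 : j = T.t
        · rw [h2] at hjz
          refine nd (A.q * A.w + A.sg - (A.q * n' + f')) ⟨jz - tz, ?_⟩ ?_ ?_
          · rw [e0] at hjz; linear_combination hjz - htz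
          · rcases hsg with h | h <;> rw [h] <;> omega
          · rcases hsg with h | h <;> rw [h] <;> omega
        · exact hM (by omega) (by omega)
      · rw [he] at hF hM htz
        have h1 : ¬ ((A.p : ℤ) < j + T.t) := fun h => hF.2 ⟨rfl, h⟩
        by_cases h2 : j + T.t = A.p
        · have e1 : j = A.p - T.t := by omega
          rw [e1] at hjz
          refine nd (A.D + A.q * A.w + A.sg - (A.q * n' + f')) ⟨jz - dz + tz, ?_⟩ ?_ ?_
          · rw [hDd]; rw [e0] at hjz; linear_combination hjz - hdz + htz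
          · rcases hsg with h | h <;> rw [h] <;> omega
          · rcases hsg with h | h <;> rw [h] <;> omega
        · exact hM (by omega) (by omega)

end TAp

end Pool.Agent.H78.Tie
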